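import Pool.Agent.Lib.MP_121b2e_lc.QG.Cond

/-!
# Intersections of few dense open sets
-/

set_option autoImplicit false

namespace Pool.Agent.QG

open Cardinal Set Filter

universe u v

/-- In a preorder in which decreasing sequences indexed by initial segments of the well-order `J`
have lower bounds, the intersection of a family of dense open sets indexed by `J` is dense. -/
theorem baire {J : Type u} {Q : Type v} [LinearOrder J] [WellFoundedLT J] [Preorder Q]
    (hcl : ∀ (I : Set J), I.Nonempty → (∀ a ∈ I, ∀ b < a, b ∈ I) → ∀ s : J → Q,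
      (∀ a ∈ I, ∀ b ∈ I, b ≤ a → s a ≤ s b) → ∃ q, ∀ a ∈ I, q ≤ s a)
    (E : J → Q → Prop) (hopen : ∀ j q r, r ≤ q → E j q → E j r)
    (hdense : ∀ j q, ∃ r ≤ q, E j r) (q : Q) : ∃ r ≤ q, ∀ j, E j r := by
  classical
  -- the recursion
  let good : (j : J) → ((i : J) → i < j → Q) → Q → Prop := fun j s r =>
    r ≤ q ∧ E j r ∧ ∀ i (hi : i < j), r ≤ s i hi
  let F : (j : J) → ((i : J) → i < j → Q) → Q := fun j s =>
    if h : ∃ r, good j s r then h.choose else q
  let s : J → Q := (wellFounded_lt (α := J)).fix F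
  have hs : ∀ j, s j = F j (fun i _ => s i) := fun j => WellFounded.fix_eq _ _ _
  have key : ∀ j, s j ≤ q ∧ E j (s j) ∧ ∀ i < j, s j ≤ s i := by
    intro j
    induction j using (wellFounded_lt (α := J)).induction with
    | _ j ih =>
      have hex : ∃ r, good j (fun i _ => s i) r := by
        by_cases hne : (Set.Iio j).Nonempty
        · obtain ⟨r, hr⟩ := hcl (Set.Iio j) hne (fun a ha b hb => lt_trans hb ha) s
            (fun a ha b hb hba => by
              rcases hba.lt_or_eq with h1 | h1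
              · exact (ih a ha).2.2 b h1
              · rw [h1])
          obtain ⟨r', hr', hE⟩ := hdense j r
          obtain ⟨i, hi⟩ := hne
          exact ⟨r', (hr'.trans (hr i hi)).trans (ih i hi).1, hE, fun i hi => hr'.trans (hr i hi)⟩
        · obtain ⟨r', hr', hE⟩ := hdense j q
          exact ⟨r', hr', hE, fun i hi => absurd ⟨i, hi⟩ hne⟩
      have h1 : good j (fun i _ => s i) (s j) := by
        rw [hs j]
        have h2 : F j (fun i _ => s i) = hex.choose := dif_pos hex
        rw [h2]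
        exact hex.choose_spec
      exact ⟨h1.1, h1.2.1, fun i hi => h1.2.2 i hi⟩
  by_cases hJ : Nonempty J
  · obtain ⟨j₀⟩ := hJ
    obtain ⟨r, hr⟩ := hcl Set.univ ⟨j₀, Set.mem_univ _⟩ (fun _ _ _ _ => Set.mem_univ _) s
      (fun a _ b _ hba => by
        rcases hba.lt_or_eq with h1 | h1
        · exact (key a).2.2 b h1
        · rw [h1])
    exact ⟨r, (hr j₀ (Set.mem_univ _)).trans (key j₀).1,
      fun j => hopen j _ _ (hr j (Set.mem_univ _)) (key j).2.1⟩
  · exact ⟨q, le_rfl, fun j => absurd ⟨j⟩ hJ⟩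

variable {K : Type u} [LinearOrder K] [WellFoundedLT K]
variable {Ω : Type u} [LinearOrder Ω] {D : Ultrafilter K} {c : Ω → Ω → K}

/-- the conditions with support outside `ξ` absorb the conditions with support in `ξ` -/
theorem Setup.absorb (h : Setup K Ω D c) (ξ : K) (hξ : Inac ξ) (Φ : Cond K → Prop)
    (hopen : ∀ q r, r ≤ q → Φ q → Φ r) (hdense : ∀ q, ∃ r ≤ q, Φ r) (t : Cond K)
    (ht : t.High ξ) :
    ∃ t' ≤ t, t'.High ξ ∧ ∀ r : Cond K, r.Low ξ → ∃ r' ≤ r, r'.Low ξ ∧ Φ (r'.join t') := by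
  classical
  let J := {r : Cond K // r.Low ξ}
  let Q := {t : Cond K // t.High ξ}
  obtain ⟨hJ1, hJ2⟩ := exists_wellFoundedLT J
  let E : J → Q → Prop := fun r t => ∃ r' ≤ r.1, r'.Low ξ ∧ Φ (r'.join t.1)
  have key : ∃ t' ≤ (⟨t, ht⟩ : Q), ∀ r, E r t' := by
    refine baire (J := J) (Q := Q) ?_ E ?_ ?_ ⟨t, ht⟩
    · intro I _ _ s hs
      obtain ⟨q, hq1, hq2, -⟩ := h.union ξ (ι := I) ((mk_set_le I).trans (card_low ξ hξ))
        (fun i => (s i).1) (fun i => (s i).2) (by
          intro i j α x b b' hb hb'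
          rcases le_total (i : J) j with hij | hij
          · have h1 := hs j j.2 i i.2 hij α x b hb
            exact Option.some_injective _ (h1.symm.trans hb')
          · have h1 := hs i i.2 j j.2 hij α x b' hb'
            exact Option.some_injective _ (hb.symm.trans h1))
      exact ⟨⟨q, hq1⟩, fun a ha => hq2 ⟨a, ha⟩⟩
    · rintro r t₁ t₂ h12 ⟨r', hr', hlow, hΦ⟩
      exact ⟨r', hr', hlow, hopen _ _ (Cond.join_mono hlow t₂.2 le_rfl h12) hΦ⟩
    · intro r t₁
      obtain ⟨q, hq, hΦ⟩ := hdense (r.1.join t₁.1)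
      refine ⟨⟨q.high ξ, q.high_High ξ⟩, Cond.high_le (hq.trans (Cond.join_le_right r.2 t₁.2)) t₁.2,
        q.low ξ, Cond.low_le (hq.trans (Cond.join_le_left _ _)) r.2, q.low_Low ξ,
        hopen _ _ (q.low_join_high ξ) hΦ⟩
  obtain ⟨t', ht', hE⟩ := key
  exact ⟨t'.1, ht', t'.2, fun r hr => hE ⟨r, hr⟩⟩

end Pool.Agent.QG
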