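import Pool.Agent.Lib.MP_121b2e_lc.QG.Setup

/-!
# The Easton product
-/

set_option autoImplicit false

namespace Pool.Agent.QG

open Cardinal Set Filter

universe u

variable {K : Type u} [LinearOrder K]

/-- Conditions: partial functions `f` from `K × K` to `Bool`; the values at `(α, x)`, for fixed `α`,
form a partial function with domain bounded below `(mu α)⁺`; the support (the set of `α` with
nonempty `f α`) is bounded in every inaccessible `ξ` and in `K`. -/
@[ext]
structure Cond (K : Type u) [LinearOrder K] where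
  f : K → K → Option Bool
  bd : ∀ α, ∃ b, Lev α b ∧ ∀ x, f α x ≠ none → x ≤ b
  east : ∀ ξ, Inac ξ → ∃ ρ < ξ, ∀ α < ξ, ∀ x, f α x ≠ none → α ≤ ρ
  top : ∃ ρ, ∀ α x, f α x ≠ none → α ≤ ρ

/-- stronger conditions are larger functions -/
instance : PartialOrder (Cond K) where
  le q p := ∀ α x b, p.f α x = some b → q.f α x = some b
  le_refl _ _ _ _ h := h
  le_trans _ _ _ h₁ h₂ α x b h := h₁ α x b (h₂ α x b h)
  le_antisymm p q h₁ h₂ := by
    ext α x b
    exact ⟨fun h => h₂ α x b h, fun h => h₁ α x b h⟩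

theorem Cond.le_def {q p : Cond K} : q ≤ p ↔ ∀ α x b, p.f α x = some b → q.f α x = some b :=
  Iff.rfl

theorem Cond.ne_none_of_le {q p : Cond K} (h : q ≤ p) {α x : K} (hx : p.f α x ≠ none) :
    q.f α x ≠ none := by
  obtain ⟨b, hb⟩ := Option.ne_none_iff_exists'.1 hx
  simp [h α x b hb]

/-- the support of `p` is contained in `ξ` -/
def Cond.Low (ξ : K) (p : Cond K) : Prop := ∀ α x, p.f α x ≠ none → α < ξ

/-- the support of `p` is disjoint from `ξ` -/
def Cond.High (ξ : K) (p : Cond K) : Prop := ∀ α x, p.f α x ≠ none → ξ ≤ α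

theorem Cond.Low.mono {ξ ζ : K} {p : Cond K} (h : p.Low ξ) (hξ : ξ ≤ ζ) : p.Low ζ :=
  fun α x hx => (h α x hx).trans_le hξ

/-- a function with smaller domain is a condition -/
noncomputable def Cond.cutTo (p : Cond K) (s : Set K) : Cond K where
  f α x := open Classical in if α ∈ s then p.f α x else none
  bd α := by
    obtain ⟨b, hb, h⟩ := p.bd α
    refine ⟨b, hb, fun x hx => h x fun h' => hx ?_⟩
    simp [h']
  east ζ hζ := by
    obtain ⟨ρ, hρ, h⟩ := p.east ζ hζ
    refine ⟨ρ, hρ, fun α hα x hx => h α hα x fun h' => hx ?_⟩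
    simp [h']
  top := by
    obtain ⟨ρ, h⟩ := p.top
    refine ⟨ρ, fun α x hx => h α x fun h' => hx ?_⟩
    simp [h']

/-- the part of `p` with support in `ξ` -/
noncomputable def Cond.low (ξ : K) (p : Cond K) : Cond K := p.cutTo (Iio ξ)

/-- the part of `p` with support outside `ξ` -/
noncomputable def Cond.high (ξ : K) (p : Cond K) : Cond K := p.cutTo (Ici ξ)

/-- the union of `p` and `t`, where `p` has priority -/
noncomputable def Cond.join (p t : Cond K) : Cond K where
  f α x := (p.f α x).or (t.f α x)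
  bd α := by
    obtain ⟨b, hb, h⟩ := p.bd α
    obtain ⟨b', hb', h'⟩ := t.bd α
    refine ⟨max b b', ?_, fun x hx => ?_⟩
    · rcases le_total b b' with h1 | h1
      · rwa [max_eq_right h1]
      · rwa [max_eq_left h1]
    · by_cases h1 : p.f α x = none
      · refine le_max_of_le_right (h' x fun h2 => hx ?_)
        simp [h1, h2]
      · exact le_max_of_le_left (h x h1)
  east ξ hξ := by
    obtain ⟨ρ, hρ, h⟩ := p.east ξ hξ
    obtain ⟨ρ', hρ', h'⟩ := t.east ξ hξ
    refine ⟨max ρ ρ', max_lt hρ hρ', fun α hα x hx => ?_⟩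
    by_cases h1 : p.f α x = none
    · refine le_max_of_le_right (h' α hα x fun h2 => hx ?_)
      simp [h1, h2]
    · exact le_max_of_le_left (h α hα x h1)
  top := by
    obtain ⟨ρ, h⟩ := p.top
    obtain ⟨ρ', h'⟩ := t.top
    refine ⟨max ρ ρ', fun α x hx => ?_⟩
    by_cases h1 : p.f α x = none
    · refine le_max_of_le_right (h' α x fun h2 => hx ?_)
      simp [h1, h2]
    · exact le_max_of_le_left (h α x h1)

/-- the empty condition -/
noncomputable def Cond.empty [Nonempty K] : Cond K where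
  f _ _ := none
  bd α := ⟨α, le_mu α, fun x hx => absurd rfl hx⟩
  east ξ hξ := by
    obtain ⟨a, ha⟩ := hξ.1
    exact ⟨a, ha, fun α _ x hx => absurd rfl hx⟩
  top := ⟨Classical.arbitrary K, fun α x hx => absurd rfl hx⟩

/-- `p` with the values of the partial function `g` with domain contained in `Iic b` added at the
coordinate `η`, where `g` has priority -/
noncomputable def Cond.ins (p : Cond K) (η : K) (g : K → Option Bool) (b : K) (hb : Lev η b)
    (hg : ∀ x, g x ≠ none → x ≤ b) : Cond K where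
  f α y := if α = η then (g y).or (p.f η y) else p.f α y
  bd α := by
    obtain ⟨b', hb', h⟩ := p.bd α
    by_cases hα : α = η
    · subst hα
      refine ⟨max b b', ?_, fun x hx => ?_⟩
      · rcases le_total b b' with h1 | h1
        · rwa [max_eq_right h1]
        · rwa [max_eq_left h1]
      · by_cases h1 : g x = none
        · refine le_max_of_le_right (h x fun h2 => hx ?_)
          simp [h1, h2]
        · exact le_max_of_le_left (hg x h1)
    · exact ⟨b', hb', fun x hx => h x (by simpa [hα] using hx)⟩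
  east ξ hξ := by
    obtain ⟨ρ, hρ, h⟩ := p.east ξ hξ
    by_cases hη : η < ξ
    · refine ⟨max ρ η, max_lt hρ hη, fun α hα x hx => ?_⟩
      by_cases h1 : α = η
      · exact le_max_of_le_right h1.le
      · exact le_max_of_le_left (h α hα x (by simpa [h1] using hx))
    · refine ⟨ρ, hρ, fun α hα x hx => h α hα x ?_⟩
      have h1 : α ≠ η := fun h1 => hη (h1 ▸ hα)
      simpa [h1] using hx
  top := by
    obtain ⟨ρ, h⟩ := p.top
    refine ⟨max ρ η, fun α x hx => ?_⟩
    by_cases h1 : α = η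
    · exact le_max_of_le_right h1.le
    · exact le_max_of_le_left (h α x (by simpa [h1] using hx))

theorem Cond.join_le_left (p t : Cond K) : p.join t ≤ p := by
  intro α x b h
  simp [Cond.join, h]

/-- the union is stronger than both parts if the parts have separated supports -/
theorem Cond.join_le_right {p t : Cond K} {ξ : K} (hp : p.Low ξ) (ht : t.High ξ) :
    p.join t ≤ t := by
  intro α x b h
  have h1 : p.f α x = none := by
    by_contra h2
    exact absurd (hp α x h2) (not_lt.2 (ht α x (by simp [h])))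
  simp [Cond.join, h, h1]

theorem Cond.le_join {q p t : Cond K} (h1 : q ≤ p) (h2 : q ≤ t) : q ≤ p.join t := by
  intro α x b h
  simp only [Cond.join, Option.or_eq_some_iff] at h
  rcases h with h | ⟨-, h⟩
  · exact h1 α x b h
  · exact h2 α x b h

theorem Cond.join_mono {p t p' t' : Cond K} {ξ : K} (hp' : p'.Low ξ) (ht' : t'.High ξ)
    (h1 : p' ≤ p) (h2 : t' ≤ t) : p'.join t' ≤ p.join t :=
  Cond.le_join ((Cond.join_le_left _ _).trans h1) ((Cond.join_le_right hp' ht').trans h2)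

theorem Cond.cutTo_le (p : Cond K) (s : Set K) : p ≤ p.cutTo s := by
  intro α x b h
  simp only [Cond.cutTo] at h
  split_ifs at h with h1
  exact h

theorem Cond.le_low (p : Cond K) (ξ : K) : p ≤ p.low ξ := p.cutTo_le _

theorem Cond.le_high (p : Cond K) (ξ : K) : p ≤ p.high ξ := p.cutTo_le _

theorem Cond.low_join_high (p : Cond K) (ξ : K) : (p.low ξ).join (p.high ξ) ≤ p := by
  intro α x b h
  rcases lt_or_ge α ξ with h1 | h1
  · simp [Cond.join, Cond.low, Cond.high, Cond.cutTo, h1, h]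
  · simp [Cond.join, Cond.low, Cond.high, Cond.cutTo, h1, not_lt.2 h1, h]

theorem Cond.low_Low (p : Cond K) (ξ : K) : (p.low ξ).Low ξ := by
  intro α x h
  by_contra h'
  exact h (by simp [Cond.low, Cond.cutTo, h'])

theorem Cond.high_High (p : Cond K) (ξ : K) : (p.high ξ).High ξ := by
  intro α x h
  by_contra h'
  exact h (by simp [Cond.high, Cond.cutTo, h'])

/-- if `q ≤ r` and `r` is supported below `ξ` then the lower part of `q` is stronger than `r` -/
theorem Cond.low_le {q r : Cond K} {ξ : K} (h : q ≤ r) (hr : r.Low ξ) : q.low ξ ≤ r := by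
  intro α x b hb
  have h1 : α < ξ := hr α x (by simp [hb])
  simp [Cond.low, Cond.cutTo, h1, h α x b hb]

theorem Cond.high_le {q t : Cond K} {ξ : K} (h : q ≤ t) (ht : t.High ξ) : q.high ξ ≤ t := by
  intro α x b hb
  have h1 : ξ ≤ α := ht α x (by simp [hb])
  simp [Cond.high, Cond.cutTo, h1, h α x b hb]

theorem Cond.ins_f (p : Cond K) (η : K) (g : K → Option Bool) (b : K) (hb : Lev η b)
    (hg : ∀ x, g x ≠ none → x ≤ b) (y : K) : (p.ins η g b hb hg).f η y = (g y).or (p.f η y) := by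
  simp [Cond.ins]

theorem Cond.ins_le (p : Cond K) (η : K) (g : K → Option Bool) (b : K) (hb : Lev η b)
    (hg : ∀ x, g x ≠ none → x ≤ b) (h : ∀ x v w, g x = some v → p.f η x = some w → v = w) :
    p.ins η g b hb hg ≤ p := by
  intro α x w hw
  by_cases hα : α = η
  · subst hα
    rw [Cond.ins_f]
    rcases hgx : g x with _ | v
    · simpa using hw
    · simp [h x v w hgx hw]
  · simp [Cond.ins, hα, hw]

theorem Cond.ins_High {p : Cond K} {ξ : K} (hp : p.High ξ) (η : K) (hη : ξ ≤ η)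
    (g : K → Option Bool) (b : K) (hb : Lev η b) (hg : ∀ x, g x ≠ none → x ≤ b) :
    (p.ins η g b hb hg).High ξ := by
  intro α x hx
  by_cases hα : α = η
  · exact hα ▸ hη
  · exact hp α x (by simpa [Cond.ins, hα] using hx)

variable {Ω : Type u} [LinearOrder Ω] {D : Ultrafilter K} {c : Ω → Ω → K}

/-- every condition has support below almost all `ξ` -/
theorem Setup.low_ae (h : Setup K Ω D c) (p : Cond K) : ∀ᶠ ξ in (D : Filter K), p.Low ξ := by
  obtain ⟨ρ, hρ⟩ := p.top
  exact (h.nonpr ρ).mono fun ξ hξ α x hx => (hρ α x hx).trans_lt hξ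

/-- The union of a family `p` of at most `mu ξ` pairwise compatible conditions with support
outside `ξ`. -/
theorem Setup.union [WellFoundedLT K] (h : Setup K Ω D c) (ξ : K) {ι : Type u} (hι : #ι ≤ mu ξ)
    (p : ι → Cond K) (hp : ∀ i, (p i).High ξ)
    (hc : ∀ i j α x b b', (p i).f α x = some b → (p j).f α x = some b' → b = b') :
    ∃ q : Cond K, q.High ξ ∧ (∀ i, q ≤ p i) ∧
      ∀ α x, q.f α x ≠ none → ∃ i, (p i).f α x ≠ none := by
  have key : ∀ α x, ∃ v : Option Bool, (∀ i b, (p i).f α x = some b → v = some b) ∧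
      (v ≠ none → ∃ i, (p i).f α x ≠ none) := by
    intro α x
    by_cases hi : ∃ i, (p i).f α x ≠ none
    · obtain ⟨i, hi⟩ := hi
      obtain ⟨b, hb⟩ := Option.ne_none_iff_exists'.1 hi
      exact ⟨some b, fun j b' hb' => by rw [hc i j α x b b' hb hb'], fun _ => ⟨i, hi⟩⟩
    · push Not at hi
      exact ⟨none, fun i b hb => by simp [hi i] at hb, fun h' => absurd rfl h'⟩
  choose F hF1 hF2 using key
  have hlow : ∀ α x, F α x ≠ none → ξ ≤ α := fun α x hx => by
    obtain ⟨i, hi⟩ := hF2 α x hx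
    exact hp i α x hi
  refine ⟨⟨F, fun α => ?_, fun ζ hζ => ?_, ?_⟩, hlow, fun i α x b hb => hF1 α x i b hb, hF2⟩
  · rcases lt_or_ge α ξ with h1 | h1
    · exact ⟨α, le_mu α, fun x hx => absurd h1 (not_lt.2 (hlow α x hx))⟩
    · choose b hb1 hb2 using fun i => (p i).bd α
      obtain ⟨B, hB1, hB2⟩ := h.lev_sup α (range b) (mk_range_le.trans (hι.trans (mu_mono h1)))
        (by rintro _ ⟨i, rfl⟩; exact hb1 i)
      refine ⟨B, hB1, fun x hx => ?_⟩
      obtain ⟨i, hi⟩ := hF2 α x hx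
      exact (hb2 i x hi).trans (hB2 _ ⟨i, rfl⟩).le
  · rcases le_or_gt ζ ξ with h1 | h1
    · obtain ⟨a, ha⟩ := hζ.1
      exact ⟨a, ha, fun α hα x hx => absurd (hα.trans_le h1) (not_lt.2 (hlow α x hx))⟩
    · choose ρ hρ1 hρ2 using fun i => (p i).east ζ hζ
      obtain ⟨R, hR1, hR2⟩ := hζ.2 ξ h1 (range ρ) (mk_range_le.trans hι)
        (by rintro _ ⟨i, rfl⟩; exact hρ1 i)
      refine ⟨R, hR1, fun α hα x hx => ?_⟩
      obtain ⟨i, hi⟩ := hF2 α x hx
      exact (hρ2 i α hα x hi).trans (hR2 _ ⟨i, rfl⟩).le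
  · choose ρ hρ using fun i => (p i).top
    obtain ⟨R, hR⟩ := h.bdd (range ρ) (mk_range_le.trans_lt (hι.trans_lt (h.strong ξ)))
    refine ⟨R, fun α x hx => ?_⟩
    obtain ⟨i, hi⟩ := hF2 α x hx
    exact (hρ i α x hi).trans (hR _ ⟨i, rfl⟩).le

/-- there are few conditions with support in an inaccessible `ξ` -/
theorem card_low (ξ : K) (hξ : Inac ξ) : #{p : Cond K // p.Low ξ} ≤ mu ξ := by
  have key : ∀ p : Cond K, ∀ α < ξ, ∀ x, p.f α x ≠ none → x < ξ := by
    intro p α hα x hx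
    obtain ⟨b, hb, h1⟩ := p.bd α
    refine (h1 x hx).trans_lt ?_
    by_contra hcon
    push Not at hcon
    obtain ⟨ρ, hρ, h2⟩ := hξ.2 α hα (Iio ξ)
      ((mk_le_mk_of_subset (Iio_subset_Iio hcon)).trans hb) (fun x hx => hx)
    exact lt_irrefl _ (h2 ρ hρ)
  have hinj : Function.Injective (fun (p : {p : Cond K // p.Low ξ}) (x : Iio ξ × Iio ξ) =>
      p.1.f x.1 x.2) := by
    intro p p' hpp
    apply Subtype.ext
    apply Cond.ext
    funext α x
    by_cases h1 : α < ξ ∧ x < ξ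
    · exact congrFun hpp (⟨α, h1.1⟩, ⟨x, h1.2⟩)
    · have h2 : ∀ q : Cond K, q.Low ξ → q.f α x = none := by
        intro q hq
        by_contra h3
        exact h1 ⟨hq α x h3, key q α (hq α x h3) x h3⟩
      rw [h2 p.1 p.2, h2 p'.1 p'.2]
  refine (mk_le_of_injective hinj).trans ?_
  have h2 : #(Iio ξ × Iio ξ) ≤ #(Iio ξ) + ℵ₀ := by
    rw [mk_prod, lift_id]
    refine (mul_le_mul' (self_le_add_right _ ℵ₀) (self_le_add_right _ ℵ₀)).trans ?_
    exact (mul_eq_self (self_le_add_left _ _)).le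
  rw [mk_arrow]
  have h3 : lift.{u} #(Option Bool) ≤ (2 : Cardinal.{u}) ^ (#(Iio ξ) + ℵ₀) :=
    (lift_le_aleph0.2 mk_le_aleph0).trans ((self_le_add_left ℵ₀ (#(Iio ξ))).trans (cantor _).le)
  rw [lift_id']
  refine (power_le_power_right h3).trans ?_
  rw [← power_mul, mu]
  refine power_le_power_left two_ne_zero ?_
  refine (mul_le_mul_right h2 _).trans ?_
  exact (mul_eq_self (self_le_add_left _ _)).le

theorem Setup.card_low_lt (h : Setup K Ω D c) (ρ : K) : #{p : Cond K // p.Low ρ} < #K := by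
  obtain ⟨ξ, h1, h2⟩ := (h.inac.and (h.nonpr ρ)).exists
  refine ((card_low ξ h1).trans' ?_).trans_lt (h.strong ξ)
  exact mk_le_mk_of_subset fun p (hp : p.Low ρ) => hp.mono h2.le

theorem Setup.card_cond (h : Setup K Ω D c) : #(Cond K) ≤ #K := by
  have hω : ℵ₀ ≤ #K := by
    obtain ⟨x, -⟩ := (h.inac).exists
    exact (aleph0_le_mu x).trans (h.strong x).le
  have hsub : (Set.univ : Set (Cond K)) ⊆ ⋃ ξ : K, {p : Cond K | p.Low ξ} := by
    intro p _
    obtain ⟨ξ, hξ⟩ := (h.low_ae p).exists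
    exact mem_iUnion.2 ⟨ξ, hξ⟩
  calc #(Cond K) = #(Set.univ : Set (Cond K)) := mk_univ.symm
    _ ≤ #(⋃ ξ : K, {p : Cond K | p.Low ξ}) := mk_le_mk_of_subset hsub
    _ ≤ Cardinal.sum fun ξ : K => #{p : Cond K | p.Low ξ} := mk_iUnion_le_sum_mk
    _ ≤ Cardinal.sum fun _ : K => #K := Cardinal.sum_le_sum _ _ fun ξ => (h.card_low_lt ξ).le
    _ = #K * #K := by simp
    _ = #K := mul_eq_self hω

/-- a function whose value at `(ξ, η)` is almost always a condition with support in `ξ` is constant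
almost everywhere -/
theorem Setup.cond_const (h : Setup K Ω D c) (r : K → K → Cond K)
    (hr : ∀ᶠ ξ in (D : Filter K), ∀ᶠ η in (D : Filter K), (r ξ η).Low ξ) :
    ∃ r₀, ∀ᶠ ξ in (D : Filter K), ∀ᶠ η in (D : Filter K), r ξ η = r₀ := by
  classical
  have h1 : ∀ᶠ ξ in (D : Filter K), ∃ r₁ : Cond K, r₁.Low ξ ∧ ∀ᶠ η in (D : Filter K),
      r ξ η = r₁ := by
    filter_upwards [hr] with ξ hξ
    exact h.const (r ξ) {p | p.Low ξ} (h.card_low_lt ξ) hξ
  have h2 : ∃ r₁ : K → Cond K, ∀ᶠ ξ in (D : Filter K), (r₁ ξ).Low ξ ∧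
      ∀ᶠ η in (D : Filter K), r ξ η = r₁ ξ := by
    refine ⟨fun ξ => if hξ : ∃ r₁ : Cond K, r₁.Low ξ ∧ ∀ᶠ η in (D : Filter K), r ξ η = r₁ then
      hξ.choose else r ξ ξ, ?_⟩
    filter_upwards [h1] with ξ hξ
    rw [dif_pos hξ]
    exact hξ.choose_spec
  obtain ⟨r₁, hr₁⟩ := h2
  have h3 : ∀ ξ, ∃ ρ, Inac ξ → (r₁ ξ).Low ξ → ρ < ξ ∧ ∀ α x, (r₁ ξ).f α x ≠ none → α ≤ ρ := by
    intro ξ
    by_cases hξ : Inac ξ
    · obtain ⟨ρ, hρ, h4⟩ := (r₁ ξ).east ξ hξ
      exact ⟨ρ, fun _ h5 => ⟨hρ, fun α x hx => h4 α (h5 α x hx) x hx⟩⟩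
    · exact ⟨ξ, fun h' => absurd h' hξ⟩
  choose ρ hρ using h3
  obtain ⟨ρ₀, hρ₀⟩ := h.regr ρ (by
    filter_upwards [hr₁, h.inac] with ξ h4 h5
    exact (hρ ξ h5 h4.1).1)
  obtain ⟨ρ₁, hρ₁⟩ := (h.nonpr ρ₀).exists
  obtain ⟨r₀, -, hr₀⟩ := h.const r₁ {p | p.Low ρ₁} (h.card_low_lt ρ₁) (by
    filter_upwards [hr₁, h.inac, hρ₀] with ξ h4 h5 h6 α x hx
    exact ((hρ ξ h5 h4.1).2 α x hx).trans_lt (h6 ▸ hρ₁))
  refine ⟨r₀, ?_⟩
  filter_upwards [hr₁, hr₀] with ξ h4 h5
  filter_upwards [h4.2] with η h6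
  rw [h6, h5]

/-- the chain condition: an open set of conditions which is a union of a family `E x`, `x : K`, of
open sets, and is dense below `p`, contains a subset dense below `p` coming from a bounded
subfamily -/
theorem Setup.cc (h : Setup K Ω D c) (E : K → Cond K → Prop)
    (hE : ∀ x p q, q ≤ p → E x p → E x q) (p : Cond K) (hd : ∀ q ≤ p, ∃ r ≤ q, ∃ x, E x r) :
    ∃ b, ∀ q ≤ p, ∃ r ≤ q, ∃ x < b, E x r := by
  by_contra hcon
  push Not at hcon
  choose q hq hqE using hcon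
  obtain ⟨u, hu⟩ := h.cond_const (fun ξ _ => (q ξ).low ξ)
    (Eventually.of_forall fun ξ => Eventually.of_forall fun _ => (q ξ).low_Low ξ)
  have hu' : ∀ᶠ ξ in (D : Filter K), (q ξ).low ξ = u := hu.mono fun ξ hξ => hξ.exists.choose_spec
  have hup : u ≤ p := by
    obtain ⟨ξ, h1, h2⟩ := (hu'.and (h.low_ae p)).exists
    rw [← h1]
    exact Cond.low_le (hq ξ) h2
  obtain ⟨v, hv, x, hx⟩ := hd u hup
  obtain ⟨b, ⟨h1, h2⟩, h3⟩ := ((hu'.and (h.nonpr x)).and (h.low_ae v)).exists
  have hw1 : v.join ((q b).high b) ≤ v := Cond.join_le_left _ _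
  have hw2 : v.join ((q b).high b) ≤ q b := by
    refine le_trans ?_ ((q b).low_join_high b)
    refine Cond.le_join ?_ (Cond.join_le_right h3 ((q b).high_High b))
    rw [h1]
    exact hw1.trans hv
  exact hqE b _ hw2 x h2 (hE x _ _ hw1 hx)

end Pool.Agent.QG
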