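import Mathlib

/-!
# Forcing semantics and the statement

`P` is a notion of forcing (a preorder, stronger conditions are smaller).  Truth values are
predicates on the conditions; a sentence about the forcing extension is translated to the set of
the conditions that force it.  Subsets of a ground model set, functions between ground model sets
and sets of subsets of a ground model set are given by names.
-/

set_option autoImplicit false

namespace Pool.Agent.QG

open Cardinal Set

universe u

section Forcing

variable {P : Type u} [Preorder P]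

/-- `p ⊩ ¬ φ` -/
def fNot (φ : P → Prop) : P → Prop := fun p => ∀ q ≤ p, ¬ φ q

/-- `p ⊩ φ → ψ` -/
def fImp (φ ψ : P → Prop) : P → Prop := fun p => ∀ q ≤ p, φ q → ψ q

/-- `p ⊩ φ ∧ ψ` -/
def fAnd (φ ψ : P → Prop) : P → Prop := fun p => φ p ∧ ψ p

/-- `p ⊩ φ ∨ ψ` -/
def fOr (φ ψ : P → Prop) : P → Prop := fun p => ∀ q ≤ p, ∃ r ≤ q, φ r ∨ ψ r

/-- `p ⊩ ∀ i, φ i` -/
def fAll {I : Sort*} (φ : I → P → Prop) : P → Prop := fun p => ∀ i, φ i p

/-- `p ⊩ ∃ i, φ i` -/
def fEx {I : Sort*} (φ : I → P → Prop) : P → Prop := fun p => ∀ q ≤ p, ∃ r ≤ q, ∃ i, φ i r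

/-- A truth value: persistent, and true at `p` if true at densely many conditions below `p`. -/
def Reg (φ : P → Prop) : Prop :=
  (∀ p q, q ≤ p → φ p → φ q) ∧ ∀ p, (∀ q ≤ p, ∃ r ≤ q, φ r) → φ p

/-- A name for a subset of the ground model set `X`: `mem x p` means `p ⊩ x ∈ A`. -/
structure SetName (P : Type u) [Preorder P] (X : Type u) where
  mem : X → P → Prop
  reg : ∀ x, Reg (mem x)

/-- A name for a function `A → B` between ground model sets:
`app a b p` means `p ⊩ h(a) = b`. -/
structure FunName (P : Type u) [Preorder P] (A B : Type u) where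
  app : A → B → P → Prop
  reg : ∀ a b, Reg (app a b)
  sv : ∀ a b c p, app a b p → app a c p → b = c
  tot : ∀ a p, ∃ q ≤ p, ∃ b, app a b q

/-- A name for a set of subsets of the ground model set `X`: `mem A p` means `p ⊩ A ∈ W`; equal
sets have the same status. -/
structure FamName (P : Type u) [Preorder P] (X : Type u) where
  mem : SetName P X → P → Prop
  reg : ∀ A, Reg (mem A)
  ext : ∀ (A B : SetName P X) (p : P), (∀ x, ∀ q ≤ p, (A.mem x q ↔ B.mem x q)) →
    mem A p → mem B p

variable {X I : Type u}

theorem reg_fNot (φ : P → Prop) (hφ : ∀ p q, q ≤ p → φ p → φ q) : Reg (fNot φ) := by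
  refine ⟨fun p q hq h r hr => h r (hr.trans hq), fun p h q hq hφq => ?_⟩
  obtain ⟨r, hr, h'⟩ := h q hq
  exact h' r le_rfl (hφ q r hr hφq)

theorem reg_all {J : Sort*} (φ : J → P → Prop) (h : ∀ i, Reg (φ i)) : Reg (fAll φ) :=
  ⟨fun p q hq hp i => (h i).1 p q hq (hp i), fun p hp i => (h i).2 p fun q hq => by
    obtain ⟨r, hr, h'⟩ := hp q hq
    exact ⟨r, hr, h' i⟩⟩

theorem reg_fImp (φ ψ : P → Prop) (hφ : ∀ p q, q ≤ p → φ p → φ q) (hψ : Reg ψ) :
    Reg (fImp φ ψ) := by
  refine ⟨fun p q hq h r hr => h r (hr.trans hq), fun p h q hq hφq => ?_⟩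
  refine hψ.2 q fun r hr => ?_
  obtain ⟨t, ht, h'⟩ := h r (hr.trans hq)
  exact ⟨t, ht, h' t le_rfl (hφ q t (ht.trans hr) hφq)⟩

/-- The complement of a named subset. -/
def SetName.compl (A : SetName P X) : SetName P X where
  mem x := fNot (A.mem x)
  reg x := reg_fNot _ (A.reg x).1

/-- The `i`-th member of a named family of subsets of `X`, indexed by `I`. -/
def SetName.row (A : SetName P (I × X)) (i : I) : SetName P X where
  mem x := A.mem (i, x)
  reg x := A.reg (i, x)

/-- The intersection of the members `A i`, `i ∈ J`, of a named family, for a named set `J` of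
indices. -/
def SetName.inter (A : SetName P (I × X)) (J : SetName P I) : SetName P X where
  mem x := fAll fun i => fImp (J.mem i) (A.mem (i, x))
  reg x := reg_all _ fun i => reg_fImp _ _ (J.reg i).1 (A.reg (i, x))

/-- The name of a ground model set. -/
def SetName.check (A : Set X) : SetName P X where
  mem x _ := x ∈ A
  reg _ := ⟨fun _ _ _ h => h, fun p h => by obtain ⟨_, _, h⟩ := h p le_rfl; exact h⟩

/-- `p ⊩ A ⊆ B` -/
def fSub (A B : SetName P X) : P → Prop := fAll fun x => fImp (A.mem x) (B.mem x)

end Forcing

section Statement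

variable (P : Type u) [Preorder P] (K Ω : Type u) [LinearOrder K] [LinearOrder Ω]

variable {P K}

/-- `p ⊩ C is a closed unbounded subset of K`: `C` is unbounded, and contains all `a` which are
not the least element of `K` and such that `C` is unbounded below `a`. -/
def fClub (C : SetName P K) : P → Prop :=
  fAnd (fAll fun a : K => fEx fun b : Ioi a => C.mem b)
    (fAll fun a : {a : K // ∃ b, b < a} =>
      fImp (fAll fun b : Iio (a : K) => fEx fun x : Ioo (b : K) a => C.mem x) (C.mem a))

/-- `p ⊩ W is an ultrafilter on K` -/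
def fUltrafilter (W : FamName P K) : P → Prop :=
  fAnd (fAll fun A => fAll fun B => fImp (fAnd (W.mem A) (fSub A B)) (W.mem B)) <|
  fAnd (fAll fun A => fOr (W.mem A) (W.mem A.compl))
    (fAll fun A => fNot (fAnd (W.mem A) (W.mem A.compl)))

/-- `p ⊩ W is closed under intersections of fewer than κ sets` (`K` has order type `κ`): for every
`a : K` the intersection of a sequence of members of `W` with index set `{i | i < a}` is in `W`. -/
def fComplete (W : FamName P K) : P → Prop :=
  fAll fun a : K => fAll fun A : SetName P (K × K) =>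
    fImp (fAll fun i : Iio a => W.mem (A.row i)) (W.mem (A.inter (SetName.check (Iio a))))

/-- `p ⊩ W contains all final segments` (so it is not principal). -/
def fUniform (W : FamName P K) : P → Prop :=
  fAll fun a : K => W.mem (SetName.check (Ioi a))

/-- `p ⊩ e is injective` -/
def fInj {A B : Type u} (e : FunName P A B) : P → Prop :=
  fAll fun x : A => fAll fun y : A => fAll fun b : B =>
    fImp (fAnd (e.app x b) (e.app y b)) (fun _ => x = y)

/-- `p ⊩ I has cardinality κ`: there is a bijection from `K` onto `I`. -/
def fCardK {K Ω : Type u} (J : SetName P Ω) : P → Prop :=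
  fEx fun e : FunName P K Ω => fAnd (fInj e)
    (fAnd (fAll fun x : K => fAll fun i : Ω => fImp (e.app x i) (J.mem i))
      (fAll fun i : Ω => fImp (J.mem i) (fEx fun x : K => e.app x i)))

/-- `p ⊩ W has the Galvin property`: for every family `A` of members of `W` with index set `Ω`
(which is `κ⁺`) there is a set `J ⊆ Ω` of cardinality `κ` such that the intersection of the `A i`,
`i ∈ J`, is in `W`. -/
def fGalvin (W : FamName P K) : P → Prop :=
  fAll fun A : SetName P (Ω × K) => fImp (fAll fun i : Ω => W.mem (A.row i))
    (fEx fun J : SetName P Ω => fAnd (fCardK (K := K) J) (W.mem (A.inter J)))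

variable (P K)

/-- `p ⊩ κ is regular`: for every function `h : K → K` and every `a`, the values of `h` at the
arguments below `a` are bounded. -/
def fRegular : P → Prop :=
  fAll fun h : FunName P K K => fAll fun a : K => fEx fun b : K => fAll fun i : Iio a =>
    fEx fun v : Iio b => h.app i v

/-- `p ⊩ Ω is not collapsed to κ`: for every function `K → Ω` its values are bounded. -/
def fSuccPreserved : P → Prop :=
  fAll fun h : FunName P K Ω => fEx fun b : Ω => fAll fun i : K => fEx fun v : Iio b => h.app i v

/-- `p ⊩ there is a κ-complete nonprincipal ultrafilter on κ which contains all closed unbounded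
sets and does not have the Galvin property` (`K` has order type `κ` and `Ω` has order type `κ⁺`). -/
def fExistsQPointNonGalvin : P → Prop :=
  fEx fun W : FamName P K => fAnd (fUltrafilter W) <| fAnd (fComplete W) <| fAnd (fUniform W) <|
    fAnd (fAll fun C : SetName P K => fImp (fClub C) (W.mem C)) (fNot (fGalvin Ω W))

end Statement

end Pool.Agent.QG
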