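import Pool.Agent.Lib.MP_121b2e_lc.QG.WName

/-!
# From a measurable cardinal to the setup
-/

set_option autoImplicit false

namespace Pool.Agent.QG

open Cardinal Set Filter

universe u

variable {κ : Cardinal.{u}}

/-- small sets are not in a `κ`-complete nonprincipal ultrafilter -/
theorem small_notMem (U : Ultrafilter κ.ord.ToType)
    (hU : CardinalInterFilter (U : Filter κ.ord.ToType) κ) (hne : ∀ a, {a} ∉ U)
    (A : Set κ.ord.ToType) (hA : #A < κ) : A ∉ U := by
  intro h
  have h1 : (⋂ i, ⋂ (_ : i ∈ A), ({i}ᶜ : Set κ.ord.ToType)) ∈ (U : Filter κ.ord.ToType) :=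
    (cardinal_bInter_mem hA).2 fun i _ => Ultrafilter.compl_mem_iff_notMem.2 (hne i)
  obtain ⟨x, hx1, hx2⟩ := Filter.nonempty_of_mem (inter_mem h1 h)
  rw [mem_iInter₂] at hx1
  exact hx1 x hx2 rfl

/-- a measurable cardinal is a strong limit -/
theorem strong_limit (hκ : ℵ₀ < κ) (U : Ultrafilter κ.ord.ToType)
    (hU : CardinalInterFilter (U : Filter κ.ord.ToType) κ) (hne : ∀ a, {a} ∉ U)
    (c : Cardinal.{u}) (hc : c < κ) : 2 ^ c < κ := by
  by_contra hk
  push Not at hk
  induction c using Cardinal.inductionOn with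
  | _ C =>
  have h1 : #κ.ord.ToType ≤ #(C → Bool) := by
    rw [mk_ord_toType]
    simpa using hk
  obtain ⟨φ⟩ := h1
  have h2 : ∀ i : C, ∃ v : Bool, ∀ᶠ x in (U : Filter κ.ord.ToType), φ x i = v := by
    intro i
    by_cases h : ∀ᶠ x in (U : Filter κ.ord.ToType), φ x i = true
    · exact ⟨true, h⟩
    · refine ⟨false, ?_⟩
      have := (Ultrafilter.eventually_not (f := U)).2 h
      exact this.mono fun x hx => by simpa using hx
  choose v hv using h2
  have h3 : ∀ᶠ x in (U : Filter κ.ord.ToType), ∀ i, φ x i = v i :=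
    (eventually_cardinal_forall hc).2 hv
  obtain ⟨x, hx⟩ := h3.exists
  refine hne x ?_
  refine Filter.mem_of_superset h3 ?_
  intro y hy
  apply φ.injective
  funext i
  rw [hy i, hx i]

/-- final segments are in the ultrafilter -/
theorem final_mem (hκ : ℵ₀ < κ) (U : Ultrafilter κ.ord.ToType)
    (hU : CardinalInterFilter (U : Filter κ.ord.ToType) κ) (hne : ∀ a, {a} ∉ U)
    (a : κ.ord.ToType) : {b | a < b} ∈ U := by
  have h1 : #(Iio a) < κ := by simpa using mk_Iio_lt a
  have h2 : #(Iic a) < κ := by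
    have : (Iic a : Set κ.ord.ToType) = insert a (Iio a) := by
      ext x
      simp [le_iff_eq_or_lt]
    rw [this]
    exact (mk_insert_le).trans_lt (add_lt_of_lt hκ.le h1 (one_lt_aleph0.trans hκ))
  have h3 : (Iic a)ᶜ ∈ U := Ultrafilter.compl_mem_iff_notMem.2 (small_notMem U hU hne _ h2)
  rwa [compl_Iic] at h3

/-- there is a normal ultrafilter -/
theorem exists_normal (hκ : ℵ₀ < κ) (U : Ultrafilter κ.ord.ToType)
    (hU : CardinalInterFilter (U : Filter κ.ord.ToType) κ) (hne : ∀ a, {a} ∉ U) :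
    ∃ D : Ultrafilter κ.ord.ToType, CardinalInterFilter (D : Filter κ.ord.ToType) κ ∧
      (∀ a, {b | a < b} ∈ D) ∧ ∀ A : κ.ord.ToType → κ.ord.ToType → Prop,
        (∀ x, ∀ᶠ y in (D : Filter κ.ord.ToType), A x y) →
        ∀ᶠ y in (D : Filter κ.ord.ToType), ∀ x < y, A x y := by
  classical
  have wf : WellFounded (fun f g : κ.ord.ToType → κ.ord.ToType =>
      ∀ᶠ y in (U : Filter κ.ord.ToType), f y < g y) := by
    rw [wellFounded_iff_isEmpty_descending_chain]
    refine ⟨fun ⟨F, hF⟩ => ?_⟩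
    have hc : CountableInterFilter (U : Filter κ.ord.ToType) :=
      CardinalInterFilter.toCountableInterFilter _ hκ
    have h1 : ∀ᶠ y in (U : Filter κ.ord.ToType), ∀ n, F (n + 1) y < F n y :=
      eventually_countable_forall.2 hF
    obtain ⟨y, hy⟩ := h1.exists
    have h2 := (wellFounded_iff_isEmpty_descending_chain
      (r := fun a b : κ.ord.ToType => a < b)).1 wellFounded_lt
    exact h2.false ⟨fun n => F n y, hy⟩
  obtain ⟨f, hf, hmin⟩ := wf.has_min
    {f | ∀ x, ∀ᶠ y in (U : Filter κ.ord.ToType), x < f y}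
    ⟨id, fun x => final_mem hκ U hU hne x⟩
  refine ⟨U.map f, ?_, fun a => hf a, ?_⟩
  · refine ⟨fun S hS h => ?_⟩
    rw [Ultrafilter.coe_map, Filter.mem_map]
    have h1 : (⋂ s ∈ S, f ⁻¹' s) ∈ (U : Filter κ.ord.ToType) :=
      (cardinal_bInter_mem (c := κ) hS).2 fun s hs => by
        have := h s hs
        rwa [Ultrafilter.coe_map, Filter.mem_map] at this
    refine Filter.mem_of_superset h1 fun y hy => ?_
    rw [Set.mem_iInter₂] at hy
    exact Set.mem_sInter.2 fun s hs => hy s hs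
  · intro A hA
    by_contra hcon
    rw [← Ultrafilter.eventually_not] at hcon
    rw [Ultrafilter.coe_map, Filter.eventually_map] at hcon
    have hch : ∀ z, ∃ x, (¬ ∀ x < f z, A x (f z)) → x < f z ∧ ¬ A x (f z) := by
      intro z
      by_cases hz : ∀ x < f z, A x (f z)
      · exact ⟨z, fun h => absurd hz h⟩
      · have hz' := hz
        push Not at hz'
        obtain ⟨x, hx1, hx2⟩ := hz'
        exact ⟨x, fun _ => ⟨hx1, hx2⟩⟩
    choose g hg using hch
    have hgF : ¬ ∀ x, ∀ᶠ y in (U : Filter κ.ord.ToType), x < g y := fun h =>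
      hmin g h (hcon.mono fun z hz => (hg z hz).1)
    push Not at hgF
    obtain ⟨x₀, hx₀⟩ := hgF
    have hκ0 : ℵ₀ ≤ κ := hκ.le
    have hcard : #(Set.Iic x₀) < κ := by
      have h1 : Set.Iic x₀ = insert x₀ (Set.Iio x₀) := by
        ext y
        simp [le_iff_eq_or_lt]
      rw [h1]
      refine lt_of_le_of_lt Cardinal.mk_insert_le ?_
      have h2 : #(Set.Iio x₀) < κ := by simpa using Cardinal.mk_Iio_lt x₀
      exact Cardinal.add_lt_of_lt hκ0 h2 (one_lt_aleph0.trans hκ)
    have hall : ∀ᶠ z in (U : Filter κ.ord.ToType), ∀ x ∈ Set.Iic x₀, A x (f z) :=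
      (eventually_cardinal_ball (c := κ) (l := (U : Filter κ.ord.ToType)) hcard
        (p := fun z x _ => A x (f z))).2 fun x _ => hA x
    obtain ⟨z, hz1, hz2, hz3⟩ := (hcon.and (hx₀.and hall)).exists
    exact (hg z hz1).2 (hz3 _ hz2)

/-- functions from `κ` to `κ⁺` are bounded -/
theorem succ_bdd (hκ : ℵ₀ < κ) (g : κ.ord.ToType → (Order.succ κ).ord.ToType) :
    ∃ j, ∀ x, g x < j := by
  by_contra hc
  push Not at hc
  have h1 : IsCofinal (range g) := by
    intro j
    obtain ⟨x, hx⟩ := hc j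
    exact ⟨g x, mem_range_self x, hx⟩
  have h2 := Order.cof_le h1
  rw [Ordinal.cof_toType, (isRegular_succ hκ.le).cof_ord] at h2
  have h3 : #(range g) ≤ κ := by
    refine mk_range_le.trans ?_
    rw [mk_ord_toType]
  exact absurd (h2.trans h3) (not_le.2 (Order.lt_succ κ))

/-- the initial segments of `κ⁺` can be injected into `κ` -/
theorem succ_inj (hκ : ℵ₀ < κ) :
    ∃ c : (Order.succ κ).ord.ToType → (Order.succ κ).ord.ToType → κ.ord.ToType,
      ∀ j, InjOn (c j) (Iio j) := by
  have h1 : ∀ j : (Order.succ κ).ord.ToType, ∃ f : (Order.succ κ).ord.ToType → κ.ord.ToType,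
      InjOn f (Iio j) := by
    intro j
    have h2 : #(Iio j) < Order.succ κ := by simpa using mk_Iio_lt j
    have h3 : #(Iio j) ≤ #κ.ord.ToType := by
      rw [mk_ord_toType]
      exact Order.lt_succ_iff.1 h2
    obtain ⟨f⟩ := h3
    have hne : Nonempty κ.ord.ToType := by
      rw [← mk_ne_zero_iff, mk_ord_toType]
      exact (aleph0_pos.trans hκ).ne'
    obtain ⟨x0⟩ := hne
    classical
    refine ⟨fun x => if h : x < j then f ⟨x, h⟩ else x0, ?_⟩
    intro x hx y hy hxy
    have hx' : x < j := hx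
    have hy' : y < j := hy
    simp only [hx', hy', dif_pos] at hxy
    exact congrArg Subtype.val (f.injective hxy)
  choose f hf using h1
  exact ⟨f, hf⟩

theorem exists_setup (hκ : ℵ₀ < κ) (U : Ultrafilter κ.ord.ToType)
    (hU : CardinalInterFilter (U : Filter κ.ord.ToType) κ) (hne : ∀ a, {a} ∉ U) :
    ∃ (D : Ultrafilter κ.ord.ToType)
      (c : (Order.succ κ).ord.ToType → (Order.succ κ).ord.ToType → κ.ord.ToType),
      Setup κ.ord.ToType (Order.succ κ).ord.ToType D c := by
  obtain ⟨D, hD, h1, h2⟩ := exists_normal hκ U hU hne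
  obtain ⟨c, hc⟩ := succ_inj (κ := κ) hκ
  refine ⟨D, c, ⟨?_, h1, h2, ?_, succ_bdd hκ, hc⟩⟩
  · intro x
    rw [mk_ord_toType]
    refine strong_limit hκ U hU hne _ ?_
    have h1 : #(Iio x) < κ := by simpa using mk_Iio_lt x
    exact add_lt_of_lt hκ.le h1 hκ
  · intro ι A hι hA
    rw [mk_ord_toType] at hι
    exact (eventually_cardinal_forall hι).2 hA

end Pool.Agent.QG
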