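import Pool.Agent.Lib.MP_121b2e_lc.QG.Baire

/-!
# The closed part of the forcing
-/

set_option autoImplicit false

namespace Pool.Agent.QG

open Cardinal Set Filter

universe u

variable {K : Type u} [LinearOrder K] {Ω : Type u} [LinearOrder Ω]

/-- Conditions of the closed part: a sequence of functions `f i`, `i ≤ β`, from `K` to `K`,
increasing modulo `D`, and a family `t ξ η` of conditions of the Easton product with support outside
`ξ`, such that for almost all `ξ` and almost all `η` the domain of the part of `t ξ η` at the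
coordinate `η` is bounded by `f β η`, and the value of it at `f i η` is `c β i < ξ`
(for `i < β` with `c β i < η`). -/
structure SCond (D : Ultrafilter K) (c : Ω → Ω → K) where
  β : Ω
  f : Ω → K → K
  t : K → K → Cond K
  lev : ∀ i ≤ β, ∀ η, Lev η (f i η)
  incr : ∀ i j, i < j → j ≤ β → ∀ᶠ η in (D : Filter K), f i η < f j η
  high : ∀ ξ η, (t ξ η).High ξ
  bd : ∀ᶠ ξ in (D : Filter K), ∀ᶠ η in (D : Filter K), ∀ x, (t ξ η).f η x ≠ none → x < f β η
  pat : ∀ᶠ ξ in (D : Filter K), ∀ᶠ η in (D : Filter K), ∀ i < β, c β i < η →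
    (t ξ η).f η (f i η) = some (decide (c β i < ξ))

variable {D : Ultrafilter K} {c : Ω → Ω → K}

instance : Preorder (SCond D c) where
  le s' s := s.β ≤ s'.β ∧ (∀ i ≤ s.β, s'.f i = s.f i) ∧
    ∀ᶠ ξ in (D : Filter K), ∀ᶠ η in (D : Filter K), s'.t ξ η ≤ s.t ξ η
  le_refl s := ⟨le_rfl, fun _ _ => rfl, Eventually.of_forall fun _ => Eventually.of_forall
    fun _ => le_rfl⟩
  le_trans s₁ s₂ s₃ h₁ h₂ := by
    refine ⟨h₂.1.trans h₁.1, fun i hi => (h₁.2.1 i (hi.trans h₂.1)).trans (h₂.2.1 i hi), ?_⟩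
    filter_upwards [h₁.2.2, h₂.2.2] with ξ h₃ h₄
    filter_upwards [h₃, h₄] with η h₅ h₆
    exact h₅.trans h₆

theorem SCond.le_def {s' s : SCond D c} : s' ≤ s ↔ s.β ≤ s'.β ∧ (∀ i ≤ s.β, s'.f i = s.f i) ∧
    ∀ᶠ ξ in (D : Filter K), ∀ᶠ η in (D : Filter K), s'.t ξ η ≤ s.t ξ η := Iff.rfl

variable [WellFoundedLT K] [WellFoundedLT Ω]

/-- there is a condition -/
theorem Setup.nonempty_SCond [Nonempty Ω] (h : Setup K Ω D c) : Nonempty (SCond D c) := by
  have hK : Nonempty K := by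
    have : Filter.NeBot (D : Filter K) := inferInstance
    exact Filter.nonempty_of_neBot (D : Filter K)
  obtain ⟨β, -, hβ⟩ := WellFounded.has_min (wellFounded_lt : WellFounded ((· < ·) : Ω → Ω → Prop))
    Set.univ ⟨Classical.arbitrary Ω, Set.mem_univ _⟩
  refine ⟨⟨β, fun _ η => η, fun _ _ => Cond.empty, fun _ _ η => le_mu η, ?_, ?_, ?_, ?_⟩⟩
  · intro i j hij hj
    exact absurd (hij.trans_le hj) (hβ i (Set.mem_univ _))
  · intro ξ η α x hx
    exact absurd rfl hx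
  · exact Eventually.of_forall fun _ => Eventually.of_forall fun _ x hx => absurd rfl hx
  · exact Eventually.of_forall fun _ => Eventually.of_forall fun _ i hi =>
      absurd hi (hβ i (Set.mem_univ _))

/-! ### One step -/

/-- the smallest element of `Ω` above `j` -/
theorem Setup.exists_succ (h : Setup K Ω D c) (j : Ω) : ∃ j', ∀ i, i < j' ↔ i ≤ j := by
  obtain ⟨k₀⟩ : Nonempty K := Filter.nonempty_of_neBot (D : Filter K)
  obtain ⟨j₁, hj₁⟩ := h.regΩ fun _ => j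
  have hne : {x : Ω | j < x}.Nonempty := ⟨j₁, hj₁ k₀⟩
  refine ⟨(wellFounded_lt (α := Ω)).min {x : Ω | j < x} hne, fun i => ⟨fun hi => ?_, fun hi => ?_⟩⟩
  · by_contra h1
    exact (wellFounded_lt (α := Ω)).not_lt_min {x : Ω | j < x} (not_le.mp h1) hi
  · exact hi.trans_lt ((wellFounded_lt (α := Ω)).min_mem {x : Ω | j < x} hne)

/-- `x` bounds the domain of `(t ξ η).f η` for all `ξ ≤ η` -/
theorem Setup.exists_bound (h : Setup K Ω D c) (t : K → K → Cond K) (η y : K) (hy : Lev η y) :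
    ∃ b, Lev η b ∧ y < b ∧ ∀ ξ ≤ η, ∀ x, (t ξ η).f η x ≠ none → x < b := by
  have h1 : ∀ ξ, ∃ b, Lev η b ∧ ∀ x, (t ξ η).f η x ≠ none → x ≤ b := fun ξ => (t ξ η).bd η
  choose B hB1 hB2 using h1
  have h2 : #(Iic η) ≤ mu η := by
    rw [← Iio_insert]
    refine (mk_insert_le).trans ?_
    exact (add_le_add (le_mu η) (one_le_aleph0.trans (aleph0_le_mu η))).trans
      (add_eq_self (aleph0_le_mu η)).le
  have h3 : #(insert y (B '' Iic η) : Set K) ≤ mu η := by
    refine (mk_insert_le).trans ?_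
    exact (add_le_add (mk_image_le.trans h2) (one_le_aleph0.trans (aleph0_le_mu η))).trans
      (add_eq_self (aleph0_le_mu η)).le
  obtain ⟨b, hb1, hb2⟩ := h.lev_sup η _ h3 (by
    rintro x (rfl | ⟨ξ, -, rfl⟩)
    · exact hy
    · exact hB1 ξ)
  refine ⟨b, hb1, hb2 y (mem_insert _ _), fun ξ hξ x hx => ?_⟩
  exact (hB2 ξ x hx).trans_lt (hb2 _ (mem_insert_of_mem _ ⟨ξ, hξ, rfl⟩))

/-- the one-step extension: the new pattern point `f β η` gets the value `true` -/
theorem Setup.step (h : Setup K Ω D c) (s : SCond D c) (t : K → K → Cond K)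
    (hhigh : ∀ ξ η, (t ξ η).High ξ)
    (ht : ∀ᶠ ξ in (D : Filter K), ∀ᶠ η in (D : Filter K), t ξ η ≤ s.t ξ η)
    (htop : ∀ᶠ ξ in (D : Filter K), ∀ᶠ η in (D : Filter K),
      (t ξ η).f η (s.f s.β η) = some true) :
    ∃ s' ≤ s, s.β < s'.β ∧ s'.t = t := by
  classical
  obtain ⟨j', hj'⟩ := h.exists_succ s.β
  choose b hb1 hb2 hb3 using fun η => h.exists_bound t η (s.f s.β η) (s.lev s.β le_rfl η)
  have hβ : s.β < j' := (hj' _).2 le_rfl
  refine ⟨⟨j', fun i => if i = j' then b else s.f i, t, ?_, ?_, hhigh, ?_, ?_⟩,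
    ⟨hβ.le, fun i hi => if_neg (hi.trans_lt hβ).ne, ht⟩, hβ, rfl⟩
  · intro i hi η
    by_cases h1 : i = j'
    · simpa [h1] using hb1 η
    · simpa [h1] using s.lev i ((hj' i).1 (lt_of_le_of_ne hi h1)) η
  · intro i j hij hj
    have hi : i < j' := hij.trans_le hj
    by_cases h1 : j = j'
    · simp only [h1, hi.ne, if_true, if_false]
      rcases ((hj' i).1 hi).lt_or_eq with h2 | h2
      · filter_upwards [s.incr i s.β h2 le_rfl] with η h3
        exact h3.trans (hb2 η)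
      · exact Eventually.of_forall fun η => h2 ▸ hb2 η
    · simp only [h1, hi.ne, if_false]
      exact s.incr i j hij ((hj' j).1 (lt_of_le_of_ne hj h1))
  · refine Eventually.of_forall fun ξ => ?_
    filter_upwards [h.nonpr ξ] with η h1 x hx
    simpa using hb3 η ξ h1.le x hx
  · filter_upwards [s.pat, ht, htop, h.coh s.β j' hβ.le, h.nonpr (c j' s.β)] with ξ h1 h2 h3 h4 h5
    filter_upwards [h1, h2, h3, h.coh s.β j' hβ.le] with η h6 h7 h8 h9 i hi hc
    simp only [hi.ne, if_false]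
    rcases ((hj' i).1 hi).lt_or_eq with h10 | h10
    · have h11 := h7 _ _ _ (h6 i h10 ((h9 i h10).2 hc))
      rw [h11]
      simp only [h4 i h10]
    · subst h10
      rw [h8]
      simp [h5]

/-- the condition `s.t ξ η` with the new pattern point added can be further extended: preparation
of `Setup.step` -/
theorem Setup.exists_ins (h : Setup K Ω D c) (s : SCond D c) : ∃ t : K → K → Cond K,
    (∀ ξ η, (t ξ η).High ξ) ∧
    (∀ᶠ ξ in (D : Filter K), ∀ᶠ η in (D : Filter K), t ξ η ≤ s.t ξ η) ∧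
    (∀ᶠ ξ in (D : Filter K), ∀ᶠ η in (D : Filter K), (t ξ η).f η (s.f s.β η) = some true) := by
  classical
  let g : K → K → Option Bool := fun η x => if x = s.f s.β η then some true else none
  have hg : ∀ η x, g η x ≠ none → x ≤ s.f s.β η := by
    intro η x hx
    by_contra h1
    exact hx (if_neg fun h2 => h1 h2.le)
  have hg1 : ∀ η, g η (s.f s.β η) = some true := fun η => if_pos rfl
  let t : K → K → Cond K := fun ξ η =>
    if ξ ≤ η then (s.t ξ η).ins η (g η) (s.f s.β η) (s.lev s.β le_rfl η) (hg η) else s.t ξ η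
  have ht : ∀ ξ η, ξ ≤ η → t ξ η =
      (s.t ξ η).ins η (g η) (s.f s.β η) (s.lev s.β le_rfl η) (hg η) := fun ξ η h1 => if_pos h1
  refine ⟨t, fun ξ η => ?_, ?_, ?_⟩
  · by_cases h1 : ξ ≤ η
    · rw [ht ξ η h1]
      exact Cond.ins_High (s.high ξ η) η h1 _ _ _ _
    · have h2 : t ξ η = s.t ξ η := if_neg h1
      rw [h2]
      exact s.high ξ η
  · filter_upwards [s.bd] with ξ h1
    filter_upwards [h1, h.nonpr ξ] with η h2 h3
    rw [ht ξ η h3.le]
    refine Cond.ins_le _ _ _ _ _ _ ?_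
    intro x v w hv hw
    have h4 : x < s.f s.β η := h2 x (by rw [hw]; exact Option.some_ne_none w)
    have h5 : g η x = none := if_neg h4.ne
    rw [h5] at hv
    exact absurd hv.symm (Option.some_ne_none v)
  · refine Eventually.of_forall fun ξ => ?_
    filter_upwards [h.nonpr ξ] with η h3
    rw [ht ξ η h3.le, Cond.ins_f, hg1 η]
    rfl

/-! ### Lower bounds -/

section Lower

variable {I : Set K} {s : K → SCond D c}

/-- the families of a decreasing sequence are decreasing almost everywhere -/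
theorem Setup.low_coh (h : Setup K Ω D c) (hI : ∀ a ∈ I, ∀ b < a, b ∈ I)
    (hs : ∀ a ∈ I, ∀ b ∈ I, b ≤ a → s a ≤ s b) :
    ∀ᶠ ξ in (D : Filter K), ∀ᶠ η in (D : Filter K), ∀ a ∈ I, a < ξ → ∀ b ∈ I, b ≤ a →
      (s a).t ξ η ≤ (s b).t ξ η := by
  have hcard : ∀ a : K, #(Iic a) < #K := by
    intro a
    obtain ⟨a', ha'⟩ := (h.nonpr a).exists
    exact (mk_le_mk_of_subset (Iic_subset_Iio.2 ha')).trans_lt ((le_mu a').trans_lt (h.strong a'))
  have hcard' : ∀ a : K, #(Iio a) < #K := fun a => (le_mu a).trans_lt (h.strong a)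
  have h1 : ∀ a : K, ∀ᶠ ξ in (D : Filter K), ∀ b : Iic a, a ∈ I → (b : K) ∈ I →
      ∀ᶠ η in (D : Filter K), (s a).t ξ η ≤ (s b).t ξ η := by
    intro a
    refine h.complete (Iic a) _ (hcard a) fun b => ?_
    by_cases ha : a ∈ I
    · by_cases hb : (b : K) ∈ I
      · exact (hs a ha b hb b.2).2.2.mono fun ξ hξ _ _ => hξ
      · exact Eventually.of_forall fun ξ _ hb' => absurd hb' hb
    · exact Eventually.of_forall fun ξ ha' => absurd ha' ha
  filter_upwards [h.normal _ h1] with ξ h2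
  have h3 : ∀ᶠ η in (D : Filter K), ∀ a : Iio ξ, ∀ b : Iic (a : K), (a : K) ∈ I → (b : K) ∈ I →
      (s a).t ξ η ≤ (s b).t ξ η := by
    refine h.complete (Iio ξ) _ (hcard' ξ) fun a => h.complete (Iic (a : K)) _ (hcard a) fun b => ?_
    by_cases ha : (a : K) ∈ I
    · by_cases hb : (b : K) ∈ I
      · exact (h2 a a.2 b ha hb).mono fun η hη _ _ => hη
      · exact Eventually.of_forall fun η _ hb' => absurd hb' hb
    · exact Eventually.of_forall fun η ha' => absurd ha' ha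
  filter_upwards [h3] with η h4 a ha haξ b hb hba
  exact h4 ⟨a, haξ⟩ ⟨b, hba⟩ ha hb

/-- the union of the families -/
theorem Setup.low_union (h : Setup K Ω D c) (hI : ∀ a ∈ I, ∀ b < a, b ∈ I)
    (hs : ∀ a ∈ I, ∀ b ∈ I, b ≤ a → s a ≤ s b) :
    ∃ u : K → K → Cond K, (∀ ξ η, (u ξ η).High ξ) ∧
      ∀ᶠ ξ in (D : Filter K), ∀ᶠ η in (D : Filter K),
        (∀ a ∈ I, a < ξ → u ξ η ≤ (s a).t ξ η) ∧
        ∀ α x, (u ξ η).f α x ≠ none → ∃ a ∈ I, a < ξ ∧ ((s a).t ξ η).f α x ≠ none := by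
  have key : ∀ ξ η : K, ∃ u' : Cond K, u'.High ξ ∧
      ((∀ a ∈ I, a < ξ → ∀ b ∈ I, b ≤ a → (s a).t ξ η ≤ (s b).t ξ η) →
        (∀ a ∈ I, a < ξ → u' ≤ (s a).t ξ η) ∧
        ∀ α x, u'.f α x ≠ none → ∃ a ∈ I, a < ξ ∧ ((s a).t ξ η).f α x ≠ none) := by
    intro ξ η
    by_cases hc : ∀ a ∈ I, a < ξ → ∀ b ∈ I, b ≤ a → (s a).t ξ η ≤ (s b).t ξ η
    · have hcard : #{a : K // a ∈ I ∧ a < ξ} ≤ mu ξ :=
        (mk_le_mk_of_subset (s := {a : K | a ∈ I ∧ a < ξ}) (t := Iio ξ)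
          (fun a ha => ha.2)).trans (le_mu ξ)
      obtain ⟨u', h1, h2, h3⟩ := h.union ξ hcard (fun a => (s a).t ξ η)
        (fun a => (s a).high ξ η) (fun a a' α x b b' hb hb' => by
          rcases le_total (a : K) a' with hle | hle
          · have := hc a' a'.2.1 a'.2.2 a a.2.1 hle _ _ _ hb
            rw [hb'] at this
            exact (Option.some.inj this).symm
          · have := hc a a.2.1 a.2.2 a' a'.2.1 hle _ _ _ hb'
            rw [hb] at this
            exact Option.some.inj this)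
      refine ⟨u', h1, fun _ => ⟨fun a ha haξ => h2 ⟨a, ha, haξ⟩, fun α x hx => ?_⟩⟩
      obtain ⟨a, ha⟩ := h3 α x hx
      exact ⟨a, a.2.1, a.2.2, ha⟩
    · have : Nonempty K := ⟨ξ⟩
      exact ⟨Cond.empty, fun α x hx => absurd rfl hx, fun h' => absurd h' hc⟩
  choose u hu1 hu2 using key
  refine ⟨u, hu1, ?_⟩
  filter_upwards [h.low_coh hI hs] with ξ h1
  filter_upwards [h1] with η h2
  exact hu2 ξ η h2

/-- the common extension of the sequences of functions, and its length -/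
theorem Setup.low_f (h : Setup K Ω D c) (hne : I.Nonempty)
    (hs : ∀ a ∈ I, ∀ b ∈ I, b ≤ a → s a ≤ s b) :
    ∃ (γ : Ω) (f : Ω → K → K), (∀ a ∈ I, (s a).β < γ) ∧ (∀ i < γ, ∃ a ∈ I, i ≤ (s a).β) ∧
      (∀ a ∈ I, ∀ i ≤ (s a).β, f i = (s a).f i) := by
  classical
  have h1 : {j : Ω | ∀ a ∈ I, (s a).β < j}.Nonempty := by
    obtain ⟨j, hj⟩ := h.regΩ fun a => (s a).β
    exact ⟨j, fun a _ => hj a⟩
  have h2 : ∀ i : Ω, ∃ v : K → K, ∀ a ∈ I, i ≤ (s a).β → v = (s a).f i := by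
    intro i
    by_cases hi : ∃ a ∈ I, i ≤ (s a).β
    · obtain ⟨a', ha', hia'⟩ := hi
      refine ⟨(s a').f i, fun a ha hia => ?_⟩
      rcases le_total a a' with hle | hle
      · exact (hs a' ha' a ha hle).2.1 i hia
      · exact ((hs a ha a' ha' hle).2.1 i hia').symm
    · exact ⟨fun x => x, fun a ha hia => absurd ⟨a, ha, hia⟩ hi⟩
  choose f hf using h2
  refine ⟨WellFounded.min wellFounded_lt _ h1, f, WellFounded.min_mem wellFounded_lt _ h1,
    fun i hi => ?_, fun a ha i hia => hf i a ha hia⟩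
  by_contra hcon
  push Not at hcon
  exact WellFounded.not_lt_min wellFounded_lt (s := {j : Ω | ∀ a ∈ I, (s a).β < j}) (x := i) hcon hi

private theorem low_pat_aux (h : Setup K Ω D c) (A : K → K → K → Prop)
    (hA : ∀ a ∈ I, ∀ᶠ ξ in (D : Filter K), ∀ᶠ η in (D : Filter K), A a ξ η) :
    ∀ᶠ ξ in (D : Filter K), ∀ᶠ η in (D : Filter K), ∀ a ∈ I, a < ξ → A a ξ η := by
  have h1 := h.normal (fun a ξ => a ∈ I → ∀ᶠ η in (D : Filter K), A a ξ η) (fun a => by
    by_cases ha : a ∈ I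
    · filter_upwards [hA a ha] with ξ h2 _ using h2
    · exact Eventually.of_forall fun ξ h2 => absurd h2 ha)
  filter_upwards [h1] with ξ h2
  have h3 := h.complete (Iio ξ) (fun a η => (a : K) ∈ I → A a ξ η)
    ((le_mu ξ).trans_lt (h.strong ξ)) (fun a => by
      by_cases ha : (a : K) ∈ I
      · filter_upwards [h2 a a.2 ha] with η h4 _ using h4
      · exact Eventually.of_forall fun ξ h2 => absurd h2 ha)
  filter_upwards [h3] with η h4 a ha hlt
  exact h4 ⟨a, hlt⟩ ha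

/-- the pattern is compatible with the union -/
theorem Setup.low_pat (h : Setup K Ω D c) (hI : ∀ a ∈ I, ∀ b < a, b ∈ I)
    (hs : ∀ a ∈ I, ∀ b ∈ I, b ≤ a → s a ≤ s b) (u : K → K → Cond K)
    (hu : ∀ᶠ ξ in (D : Filter K), ∀ᶠ η in (D : Filter K),
        (∀ a ∈ I, a < ξ → u ξ η ≤ (s a).t ξ η) ∧
        ∀ α x, (u ξ η).f α x ≠ none → ∃ a ∈ I, a < ξ ∧ ((s a).t ξ η).f α x ≠ none)
    (γ : Ω) (f : Ω → K → K) (h1 : ∀ a ∈ I, (s a).β < γ) (h2 : ∀ i < γ, ∃ a ∈ I, i ≤ (s a).β)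
    (h3 : ∀ a ∈ I, ∀ i ≤ (s a).β, f i = (s a).f i) :
    ∀ᶠ ξ in (D : Filter K), ∀ᶠ η in (D : Filter K), ∀ i < γ, c γ i < η → ∀ v,
      (u ξ η).f η (f i η) = some v → v = decide (c γ i < ξ) := by
  have e1 := low_pat_aux (I := I) h (fun a ξ η => ∀ x, ((s a).t ξ η).f η x ≠ none →
    x < (s a).f (s a).β η) fun a _ => (s a).bd
  have e2 := low_pat_aux (I := I) h (fun a _ η => ∀ i < γ, c γ i < η → (s a).β ≤ i →
    f (s a).β η ≤ f i η) fun a ha => Eventually.of_forall fun ξ => by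
      refine h.diag γ (fun i η => (s a).β ≤ i → f (s a).β η ≤ f i η) fun i hi => ?_
      by_cases h4 : (s a).β < i
      · obtain ⟨a', ha', h5⟩ := h2 i hi
        filter_upwards [(s a').incr (s a).β i h4 h5] with η h6 _
        rw [h3 a' ha' i h5, h3 a' ha' _ (h4.le.trans h5)]
        exact h6.le
      · refine Eventually.of_forall fun η h5 => ?_
        rw [le_antisymm h5 (not_lt.mp h4)]
  have e3 := low_pat_aux (I := I) h (fun a ξ η => ∀ i < (s a).β, c (s a).β i < η →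
    ((s a).t ξ η).f η ((s a).f i η) = some (decide (c (s a).β i < ξ))) fun a _ => (s a).pat
  have e4 := low_pat_aux (I := I) h (fun a ξ _ => ∀ i < (s a).β, (c (s a).β i < ξ ↔ c γ i < ξ))
    fun a ha => by
      filter_upwards [h.coh (s a).β γ (h1 a ha).le] with ξ h4
      exact Eventually.of_forall fun _ => h4
  have e5 := low_pat_aux (I := I) h (fun a _ η => ∀ i < (s a).β, (c (s a).β i < η ↔ c γ i < η))
    fun a ha => Eventually.of_forall fun _ => h.coh (s a).β γ (h1 a ha).le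
  filter_upwards [hu, e1, e2, e3, e4, e5] with ξ d0 d1 d2 d3 d4 d5
  filter_upwards [d0, d1, d2, d3, d4, d5] with η g0 g1 g2 g3 g4 g5 i hi hc v hv
  obtain ⟨a, ha, haξ, hx⟩ := g0.2 η (f i η) (by rw [hv]; exact Option.some_ne_none v)
  have h4 : i < (s a).β := by
    by_contra h5
    have h6 := g1 a ha haξ _ hx
    rw [← h3 a ha _ le_rfl] at h6
    exact absurd (g2 a ha haξ i hi hc (not_lt.mp h5)) (not_le.mpr h6)
  have h5 := g3 a ha haξ i h4 ((g5 a ha haξ i h4).mpr hc)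
  rw [← h3 a ha i h4.le] at h5
  have h6 := g0.1 a ha haξ η (f i η) _ h5
  rw [hv] at h6
  rw [Option.some_injective _ h6]
  exact decide_eq_decide.mpr (g4 a ha haξ i h4)

private theorem mk_cond_dist (h : Setup K Ω D c) (γ : Ω) (f : Ω → K → K)
    (hincr : ∀ i j, i < j → j < γ → ∀ᶠ η in (D : Filter K), f i η < f j η) :
    ∀ᶠ η in (D : Filter K), ∀ i < γ, c γ i < η → ∀ i' < γ, c γ i' < η → i' ≠ i →
      f i' η ≠ f i η := by
  refine h.diag γ (fun i η => ∀ i' < γ, c γ i' < η → i' ≠ i → f i' η ≠ f i η) fun i hi => ?_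
  refine h.diag γ (fun i' η => i' ≠ i → f i' η ≠ f i η) fun i' hi' => ?_
  rcases lt_trichotomy i' i with h1 | h1 | h1
  · filter_upwards [hincr i' i h1 hi] with η h2 _ using h2.ne
  · exact Eventually.of_forall fun η h2 => absurd h1 h2
  · filter_upwards [hincr i i' h1 hi'] with η h2 _ using h2.ne'

/-- given a family `u` compatible with the pattern, there is a condition -/
theorem Setup.mk_cond (h : Setup K Ω D c) (γ : Ω) (f : Ω → K → K)
    (hlev : ∀ i < γ, ∀ η, Lev η (f i η))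
    (hincr : ∀ i j, i < j → j < γ → ∀ᶠ η in (D : Filter K), f i η < f j η)
    (u : K → K → Cond K) (hhigh : ∀ ξ η, (u ξ η).High ξ)
    (hpat : ∀ᶠ ξ in (D : Filter K), ∀ᶠ η in (D : Filter K), ∀ i < γ, c γ i < η → ∀ v,
      (u ξ η).f η (f i η) = some v → v = decide (c γ i < ξ)) :
    ∃ s' : SCond D c, s'.β = γ ∧ (∀ i < γ, s'.f i = f i) ∧
      ∀ᶠ ξ in (D : Filter K), ∀ᶠ η in (D : Filter K), s'.t ξ η ≤ u ξ η := by
  classical
  have hb : ∀ η : K, ∃ b, Lev η b ∧ ∀ i < γ, c γ i < η → f i η < b := by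
    intro η
    have h1 : #({x | ∃ i < γ, c γ i < η ∧ f i η = x} : Set K) ≤ mu η := by
      refine le_trans ?_ (le_mu η)
      have h2 : ({x | ∃ i < γ, c γ i < η ∧ f i η = x} : Set K) =
          (fun i => f i η) '' {i | i < γ ∧ c γ i < η} := by
        ext x
        constructor
        · rintro ⟨i, hi, hc, rfl⟩
          exact ⟨i, ⟨hi, hc⟩, rfl⟩
        · rintro ⟨i, ⟨hi, hc⟩, rfl⟩
          exact ⟨i, hi, hc, rfl⟩
      rw [h2]
      refine mk_image_le.trans ?_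
      refine mk_le_of_injective
        (f := fun i : ({i | i < γ ∧ c γ i < η} : Set Ω) => (⟨c γ i.1, i.2.2⟩ : Iio η)) ?_
      intro i j hij
      exact Subtype.ext (h.inj γ i.2.1 j.2.1 (congrArg Subtype.val hij))
    obtain ⟨b, hb1, hb2⟩ := h.lev_sup η _ h1 (by
      rintro x ⟨i, hi, -, rfl⟩
      exact hlev i hi η)
    exact ⟨b, hb1, fun i hi hc => hb2 _ ⟨i, hi, hc, rfl⟩⟩
  choose b hb1 hb2 using hb
  let g : K → K → K → Option Bool := fun ξ η x =>
    if ∃ i < γ, c γ i < η ∧ f i η = x then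
      some (decide (∃ i < γ, c γ i < η ∧ f i η = x ∧ c γ i < ξ)) else none
  have hg1 : ∀ ξ η x, (∃ i < γ, c γ i < η ∧ f i η = x) →
      g ξ η x = some (decide (∃ i < γ, c γ i < η ∧ f i η = x ∧ c γ i < ξ)) :=
    fun ξ η x h1 => if_pos h1
  have hg2 : ∀ ξ η x, g ξ η x ≠ none → ∃ i < γ, c γ i < η ∧ f i η = x := by
    intro ξ η x hx
    by_contra h1
    exact hx (if_neg h1)
  have hg : ∀ ξ η x, g ξ η x ≠ none → x ≤ b η := by
    intro ξ η x hx
    obtain ⟨i, hi, hc, rfl⟩ := hg2 ξ η x hx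
    exact (hb2 η i hi hc).le
  let t : K → K → Cond K := fun ξ η =>
    if ξ ≤ η then (u ξ η).ins η (g ξ η) (b η) (hb1 η) (hg ξ η) else u ξ η
  have ht : ∀ ξ η, ξ ≤ η → t ξ η = (u ξ η).ins η (g ξ η) (b η) (hb1 η) (hg ξ η) :=
    fun ξ η h1 => if_pos h1
  have hth : ∀ ξ η, (t ξ η).High ξ := by
    intro ξ η
    by_cases h1 : ξ ≤ η
    · rw [ht ξ η h1]
      exact Cond.ins_High (hhigh ξ η) η h1 _ _ _ _
    · have h2 : t ξ η = u ξ η := if_neg h1
      rw [h2]
      exact hhigh ξ η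
  have hB : ∀ η, ∃ B, Lev η B ∧ b η < B ∧ ∀ ξ ≤ η, ∀ x, (t ξ η).f η x ≠ none → x < B :=
    fun η => h.exists_bound t η (b η) (hb1 η)
  choose B hB1 hB2 hB3 using hB
  have hdist := mk_cond_dist h γ f hincr
  have hgv : ∀ᶠ η in (D : Filter K), ∀ ξ, ∀ i < γ, c γ i < η →
      g ξ η (f i η) = some (decide (c γ i < ξ)) := by
    filter_upwards [hdist] with η h1 ξ i hi hc
    rw [hg1 ξ η _ ⟨i, hi, hc, rfl⟩]
    congr 1
    refine decide_eq_decide.mpr ⟨?_, fun h2 => ⟨i, hi, hc, rfl, h2⟩⟩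
    rintro ⟨i', hi', hc', he, hx⟩
    by_cases h2 : i' = i
    · rw [← h2]
      exact hx
    · exact absurd he (h1 i hi hc i' hi' hc' h2)
  let F : Ω → K → K := fun i => if i < γ then f i else B
  have hF1 : ∀ i < γ, F i = f i := fun i hi => if_pos hi
  have hF2 : F γ = B := if_neg (lt_irrefl γ)
  refine ⟨⟨γ, F, t, ?_, ?_, hth, ?_, ?_⟩, rfl, hF1, ?_⟩
  · intro i hi η
    rcases hi.lt_or_eq with h1 | h1
    · rw [hF1 i h1]
      exact hlev i h1 η
    · rw [h1, hF2]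
      exact hB1 η
  · intro i j hij hj
    rcases hj.lt_or_eq with h1 | h1
    · rw [hF1 i (hij.trans h1), hF1 j h1]
      exact hincr i j hij h1
    · rw [h1] at hij
      rw [hF1 i hij, h1, hF2]
      filter_upwards [h.nonpr (c γ i)] with η h2
      exact (hb2 η i hij h2).trans (hB2 η)
  · rw [hF2]
    refine Eventually.of_forall fun ξ => ?_
    filter_upwards [h.nonpr ξ] with η h2 x hx
    exact hB3 η ξ h2.le x hx
  · refine Eventually.of_forall fun ξ => ?_
    filter_upwards [h.nonpr ξ, hgv] with η h2 h3 i hi hc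
    rw [hF1 i hi, ht ξ η h2.le, Cond.ins_f, h3 ξ i hi hc]
    rfl
  · filter_upwards [hpat] with ξ h1
    filter_upwards [h.nonpr ξ, hgv, h1] with η h2 h3 h4
    show t ξ η ≤ u ξ η
    rw [ht ξ η h2.le]
    refine Cond.ins_le _ _ _ _ _ _ ?_
    intro x v w hv hw
    obtain ⟨i, hi, hc, rfl⟩ := hg2 ξ η x (by rw [hv]; exact Option.some_ne_none v)
    rw [h3 ξ i hi hc] at hv
    rw [h4 i hi hc w hw]
    exact (Option.some_injective _ hv).symm

end Lower

/-- decreasing sequences have lower bounds -/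
theorem Setup.lower (h : Setup K Ω D c) (I : Set K) (hne : I.Nonempty)
    (hI : ∀ a ∈ I, ∀ b < a, b ∈ I) (s : K → SCond D c)
    (hs : ∀ a ∈ I, ∀ b ∈ I, b ≤ a → s a ≤ s b) : ∃ q, ∀ a ∈ I, q ≤ s a := by
  obtain ⟨u, hu1, hu2⟩ := h.low_union hI hs
  obtain ⟨γ, f, h1, h2, h3⟩ := h.low_f hne hs
  have hpat := h.low_pat hI hs u hu2 γ f h1 h2 h3
  have hlev : ∀ i < γ, ∀ η, Lev η (f i η) := by
    intro i hi η
    obtain ⟨a, ha, hia⟩ := h2 i hi
    rw [h3 a ha i hia]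
    exact (s a).lev i hia η
  have hincr : ∀ i j, i < j → j < γ → ∀ᶠ η in (D : Filter K), f i η < f j η := by
    intro i j hij hj
    obtain ⟨a, ha, hja⟩ := h2 j hj
    rw [h3 a ha j hja, h3 a ha i (hij.le.trans hja)]
    exact (s a).incr i j hij hja
  obtain ⟨s', hs1, hs2, hs3⟩ := h.mk_cond γ f hlev hincr u hu1 hpat
  refine ⟨s', fun a ha => ⟨hs1 ▸ (h1 a ha).le, fun i hi => ?_, ?_⟩⟩
  · rw [hs2 i (hi.trans_lt (h1 a ha)), h3 a ha i hi]
  · filter_upwards [hu2, hs3, h.nonpr a] with ξ h4 h5 h6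
    filter_upwards [h4, h5] with η h7 h8
    exact h8.trans (h7.1 a ha h6)

/-- the intersection of `κ` many dense open sets is dense -/
theorem Setup.baireS (h : Setup K Ω D c) (E : K → SCond D c → Prop)
    (hopen : ∀ j q r, r ≤ q → E j q → E j r) (hdense : ∀ j q, ∃ r ≤ q, E j r) (q : SCond D c) :
    ∃ r ≤ q, ∀ j, E j r :=
  baire (fun I hne hI s hs => h.lower I hne hI s hs) E hopen hdense q

/-- the length can be made arbitrarily large -/
theorem Setup.reach (h : Setup K Ω D c) (j : Ω) (s : SCond D c) : ∃ s' ≤ s, j < s'.β := by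
  induction j using WellFoundedLT.induction generalizing s with
  | ind j ih =>
    obtain ⟨s₁, h1, h2⟩ := h.baireS (fun x s => ∀ i < j, c j i = x → i < s.β)
      (fun x q r hr hq i hi hx => (hq i hi hx).trans_le hr.1)
      (fun x q => by
        by_cases hx : ∃ i < j, c j i = x
        · obtain ⟨i, hi, rfl⟩ := hx
          obtain ⟨r, hr, h3⟩ := ih i hi q
          refine ⟨r, hr, fun i' hi' he => ?_⟩
          rw [h.inj j hi' hi he]
          exact h3
        · exact ⟨q, le_rfl, fun i hi he => absurd ⟨i, hi, he⟩ hx⟩) s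
    have h3 : j ≤ s₁.β := by
      by_contra h4
      exact lt_irrefl _ (h2 (c j s₁.β) s₁.β (not_le.mp h4) rfl)
    obtain ⟨t, ht1, ht2, ht3⟩ := h.exists_ins s₁
    obtain ⟨s₂, h5, h6, -⟩ := h.step s₁ t ht1 ht2 ht3
    exact ⟨s₂, h5.trans h1, h3.trans_lt h6⟩

/-- a family of dense open sets of pairs, indexed by `K`: the first component can be fixed -/
theorem Setup.fix (h : Setup K Ω D c) (Φ : K → SCond D c → Cond K → Prop)
    (hopen : ∀ x s p s' p', s' ≤ s → p' ≤ p → Φ x s p → Φ x s' p')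
    (hdense : ∀ x s p, ∃ s' ≤ s, ∃ p' ≤ p, Φ x s' p') (s : SCond D c) :
    ∃ s' ≤ s, ∀ x p, ∃ p' ≤ p, Φ x s' p' := by
  have hK : Nonempty K := nonempty_of_neBot (D : Filter K)
  have hinf : ℵ₀ ≤ #K := by
    obtain ⟨x⟩ := hK
    exact (aleph0_le_mu x).trans (h.strong x).le
  have hcard : #(K × Cond K) ≤ #K := by
    rw [mk_prod, lift_id, lift_id]
    exact (mul_le_mul_right h.card_cond _).trans (mul_eq_self hinf).le
  obtain ⟨g⟩ := hcard
  have : Nonempty (K × Cond K) := ⟨(Classical.arbitrary K, Cond.empty)⟩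
  have hsurj := Function.invFun_surjective g.injective
  set e : K → K × Cond K := Function.invFun g
  obtain ⟨s', hs', h'⟩ := h.baireS (fun k s => ∃ p' ≤ (e k).2, Φ (e k).1 s p')
    (fun k q r hr ⟨p', hp', h1⟩ => ⟨p', hp', hopen _ _ _ _ _ hr le_rfl h1⟩)
    (fun k q => by
      obtain ⟨s', hs', p', hp', h1⟩ := hdense (e k).1 q (e k).2
      exact ⟨s', hs', p', hp', h1⟩) s
  refine ⟨s', hs', fun x p => ?_⟩
  obtain ⟨k, hk⟩ := hsurj (x, p)
  have h1 := h' k
  rw [hk] at h1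
  exact h1

/-- the decision lemma -/
theorem Setup.decide (h : Setup K Ω D c) (Φ : K → SCond D c → Cond K → Prop)
    (hopen : ∀ x s p s' p', s' ≤ s → p' ≤ p → Φ x s p → Φ x s' p')
    (hdense : ∀ x s p, ∃ s' ≤ s, ∃ p' ≤ p, Φ x s' p') (s : SCond D c) :
    ∃ s' ≤ s, ∀ p : Cond K, ∃ r ≤ p, ∀ᶠ ξ in (D : Filter K), ∀ᶠ η in (D : Filter K),
      Φ η s' (r.join (s'.t ξ η)) := by
  obtain ⟨s₁, hs1, h1⟩ := h.fix Φ hopen hdense s
  obtain ⟨t₁, ht1, ht2, ht3⟩ := h.exists_ins s₁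
  have h2 : ∀ ξ η, ∃ t' ≤ t₁ ξ η, t'.High ξ ∧ (Inac ξ → ∀ r : Cond K, r.Low ξ →
      ∃ r' ≤ r, r'.Low ξ ∧ Φ η s₁ (r'.join t')) := by
    intro ξ η
    by_cases hξ : Inac ξ
    · obtain ⟨t', h3, h4, h5⟩ := h.absorb ξ hξ (fun p => Φ η s₁ p)
        (fun q r hr hq => hopen η s₁ q s₁ r le_rfl hr hq) (h1 η) (t₁ ξ η) (ht1 ξ η)
      exact ⟨t', h3, h4, fun _ => h5⟩
    · exact ⟨t₁ ξ η, le_rfl, ht1 ξ η, fun h3 => absurd h3 hξ⟩
  choose t hta htb htc using h2
  obtain ⟨s₂, hs2, -, hs3⟩ := h.step s₁ t htb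
    (by
      filter_upwards [ht2] with ξ h3
      filter_upwards [h3] with η h4
      exact (hta ξ η).trans h4)
    (by
      filter_upwards [ht3] with ξ h3
      filter_upwards [h3] with η h4
      exact hta ξ η _ _ _ h4)
  refine ⟨s₂, hs2.trans hs1, fun p => ?_⟩
  have h3 : ∀ ξ η, ∃ r ≤ p, Inac ξ → p.Low ξ → r.Low ξ ∧ Φ η s₁ (r.join (t ξ η)) := by
    intro ξ η
    by_cases h4 : Inac ξ ∧ p.Low ξ
    · obtain ⟨r, h5, h6, h7⟩ := htc ξ η h4.1 p h4.2
      exact ⟨r, h5, fun _ _ => ⟨h6, h7⟩⟩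
    · exact ⟨p, le_rfl, fun h5 h6 => absurd ⟨h5, h6⟩ h4⟩
  choose r hr1 hr2 using h3
  obtain ⟨r₀, hr0⟩ := h.cond_const r (by
    filter_upwards [h.inac, h.low_ae p] with ξ h4 h5
    exact Eventually.of_forall fun η => (hr2 ξ η h4 h5).1)
  have hle : r₀ ≤ p := by
    obtain ⟨ξ, h4⟩ := hr0.exists
    obtain ⟨η, h5⟩ := h4.exists
    rw [← h5]
    exact hr1 ξ η
  refine ⟨r₀, hle, ?_⟩
  filter_upwards [hr0, h.inac, h.low_ae p] with ξ h4 h5 h6
  filter_upwards [h4] with η h7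
  have h8 := (hr2 ξ η h5 h6).2
  rw [h7] at h8
  rw [hs3]
  exact hopen η s₁ _ s₂ _ hs2 le_rfl h8

end Pool.Agent.QG
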