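import Pool.Agent.Lib.MP_121b2e_lc.QG.Defs

/-!
# The setup: a well-order of inaccessible length with a normal ultrafilter
-/

set_option autoImplicit false

namespace Pool.Agent.QG

open Cardinal Set Filter

universe u

variable {K : Type u} [LinearOrder K]

/-- the cardinal `2 ^ (|α| + ℵ₀)` -/
noncomputable def mu (α : K) : Cardinal.{u} := 2 ^ (#(Iio α) + ℵ₀)

/-- `b` is below the cardinal successor of `mu α` -/
def Lev (α b : K) : Prop := #(Iio b) ≤ mu α

/-- `ξ` is not the least element, and every subset of `ξ` of size at most `mu α`, `α < ξ`,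
is bounded in `ξ` -/
def Inac (ξ : K) : Prop :=
  (∃ a, a < ξ) ∧ ∀ α < ξ, ∀ A : Set K, #A ≤ mu α → (∀ x ∈ A, x < ξ) → ∃ ρ < ξ, ∀ x ∈ A, x < ρ

/-- The hypotheses: `K` has order type an inaccessible cardinal with normal ultrafilter `D`, `Ω` has
order type its successor (only the stated properties are needed), `c j` is an injection of the
initial segment `j` into `K`. -/
structure Setup (K Ω : Type u) [LinearOrder K] [LinearOrder Ω] (D : Ultrafilter K)
    (c : Ω → Ω → K) : Prop where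
  strong : ∀ x : K, mu x < #K
  nonpr : ∀ x : K, ∀ᶠ y in (D : Filter K), x < y
  normal : ∀ A : K → K → Prop, (∀ x, ∀ᶠ y in (D : Filter K), A x y) → ∀ᶠ y in (D : Filter K), ∀ x < y, A x y
  complete : ∀ (ι : Type u) (A : ι → K → Prop), #ι < #K → (∀ i, ∀ᶠ y in (D : Filter K), A i y) →
    ∀ᶠ y in (D : Filter K), ∀ i, A i y
  regΩ : ∀ g : K → Ω, ∃ j, ∀ x, g x < j
  inj : ∀ j : Ω, InjOn (c j) (Iio j)

theorem le_mu (α : K) : #(Iio α) ≤ mu α :=
  (self_le_add_right _ _).trans (cantor _).le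

theorem aleph0_le_mu (α : K) : ℵ₀ ≤ mu α :=
  (self_le_add_left _ _).trans (cantor _).le

theorem mu_mono {α β : K} (h : α ≤ β) : mu α ≤ mu β :=
  Cardinal.power_le_power_left two_ne_zero
    (add_le_add_left (mk_le_mk_of_subset (Iio_subset_Iio h)) _)

theorem Lev.mono {α β b : K} (h : α ≤ β) (hb : Lev α b) : Lev β b := hb.trans (mu_mono h)

theorem Lev.down {α b b' : K} (h : b' ≤ b) (hb : Lev α b) : Lev α b' :=
  (mk_le_mk_of_subset (Iio_subset_Iio h)).trans hb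

variable {Ω : Type u} [LinearOrder Ω] {D : Ultrafilter K} {c : Ω → Ω → K}

/-- subsets of size less than `κ` are bounded -/
theorem Setup.bdd (h : Setup K Ω D c) (A : Set K) (hA : #A < #K) : ∃ b, ∀ x ∈ A, x < b := by
  obtain ⟨b, hb⟩ := (h.complete A (fun i y => (i : K) < y) hA fun i => h.nonpr i).exists
  exact ⟨b, fun x hx => hb ⟨x, hx⟩⟩

/-- the level sets are closed under suprema of few elements -/
theorem Setup.lev_sup [WellFoundedLT K] (h : Setup K Ω D c) (α : K) (A : Set K) (hA : #A ≤ mu α)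
    (hl : ∀ x ∈ A, Lev α x) : ∃ b, Lev α b ∧ ∀ x ∈ A, x < b := by
  classical
  obtain ⟨b0, hb0⟩ := h.bdd A (hA.trans_lt (h.strong α))
  let b := (wellFounded_lt (α := K)).min {b | ∀ x ∈ A, x < b} ⟨b0, hb0⟩
  have hb : ∀ x ∈ A, x < b := (wellFounded_lt (α := K)).min_mem {b | ∀ x ∈ A, x < b} ⟨b0, hb0⟩
  have hmin : ∀ y < b, ∃ x ∈ A, y ≤ x := by
    intro y hy
    by_contra hcon
    push Not at hcon
    exact (wellFounded_lt (α := K)).not_lt_min {b | ∀ x ∈ A, x < b} hcon hy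
  refine ⟨b, ?_, hb⟩
  have hsub : Iio b ⊆ ⋃ x : A, Iic (x : K) := by
    intro y hy
    obtain ⟨x, hx, hyx⟩ := hmin y hy
    exact mem_iUnion.2 ⟨⟨x, hx⟩, hyx⟩
  have hω := aleph0_le_mu α
  have hle : ∀ x : A, #(Iic (x : K)) ≤ mu α := by
    intro x
    have h1 : (Iic (x : K)) = insert (x : K) (Iio (x : K)) := by
      ext y; simp [le_iff_eq_or_lt]
    rw [h1]
    refine (mk_insert_le).trans ?_
    exact add_le_of_le hω (hl x x.2) (one_le_aleph0.trans hω)
  calc #(Iio b) ≤ #(⋃ x : A, Iic (x : K)) := mk_le_mk_of_subset hsub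
    _ ≤ Cardinal.sum fun x : A => #(Iic (x : K)) := mk_iUnion_le_sum_mk
    _ ≤ Cardinal.sum fun _ : A => mu α := Cardinal.sum_le_sum _ _ hle
    _ = #A * mu α := by simp
    _ ≤ mu α * mu α := mul_le_mul_left hA _
    _ = mu α := mul_eq_self hω

/-- regressive functions are constant -/
theorem Setup.regr (h : Setup K Ω D c) (g : K → K) (hg : ∀ᶠ y in (D : Filter K), g y < y) :
    ∃ x, ∀ᶠ y in (D : Filter K), g y = x := by
  by_contra hcon
  push Not at hcon
  have h1 : ∀ x, ∀ᶠ y in (D : Filter K), g y ≠ x := hcon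
  have h2 := h.normal (fun x y => g y ≠ x) h1
  obtain ⟨y, hy1, hy2⟩ := (h2.and hg).exists
  exact hy1 (g y) hy2 rfl

/-- functions with few values are constant -/
theorem Setup.const (h : Setup K Ω D c) {X : Type u} (g : K → X) (T : Set X) (hT : #T < #K)
    (hg : ∀ᶠ y in (D : Filter K), g y ∈ T) : ∃ v ∈ T, ∀ᶠ y in (D : Filter K), g y = v := by
  by_contra hcon
  push Not at hcon
  have h1 : ∀ v : T, ∀ᶠ y in (D : Filter K), g y ≠ v := fun v => hcon v v.2
  have h2 := h.complete T (fun v y => g y ≠ v) hT h1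
  obtain ⟨y, hy1, hy2⟩ := (h2.and hg).exists
  exact hy1 ⟨g y, hy2⟩ rfl

/-- almost all `ξ` are inaccessible -/
theorem Setup.inac (h : Setup K Ω D c) : ∀ᶠ ξ in (D : Filter K), Inac ξ := by
  classical
  have h0 : ∀ᶠ ξ in (D : Filter K), ∃ a, a < ξ := by
    obtain ⟨a⟩ : Nonempty K := by
      obtain ⟨a, -⟩ := (Filter.univ_mem : (Set.univ : Set K) ∈ (D : Filter K)) |>
        (Filter.nonempty_of_mem)
      exact ⟨a⟩
    exact (h.nonpr a).mono fun ξ hξ => ⟨a, hξ⟩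
  refine h0.and ?_
  by_contra hcon
  rw [← Ultrafilter.eventually_not] at hcon
  -- choose witnesses
  have hw : ∀ ξ : K, ∃ (α : K) (A : Set K),
      (¬ (∀ α < ξ, ∀ A : Set K, #A ≤ mu α → (∀ x ∈ A, x < ξ) → ∃ ρ < ξ, ∀ x ∈ A, x < ρ)) →
      α < ξ ∧ #A ≤ mu α ∧ (∀ x ∈ A, x < ξ) ∧ ∀ ρ < ξ, ∃ x ∈ A, ρ ≤ x := by
    intro ξ
    by_cases hξ : (∀ α < ξ, ∀ A : Set K, #A ≤ mu α → (∀ x ∈ A, x < ξ) → ∃ ρ < ξ, ∀ x ∈ A, x < ρ)
    · exact ⟨ξ, ∅, fun h' => absurd hξ h'⟩
    · have hξ' := hξ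
      push Not at hξ
      obtain ⟨α, hα, A, hA, hAξ, hunb⟩ := hξ
      exact ⟨α, A, fun _ => ⟨hα, hA, hAξ, hunb⟩⟩
  choose α A hαA using hw
  obtain ⟨a, ha⟩ := h.regr α (hcon.mono fun ξ hξ => (hαA ξ hξ).1)
  -- enumerate
  let I := (mu a).out
  have hI : #I = mu a := mk_out _
  have hen : ∀ ξ : K, ∃ e : I → K, (A ξ).Nonempty → #(A ξ) ≤ mu a → range e = A ξ := by
    intro ξ
    by_cases h1 : (A ξ).Nonempty ∧ #(A ξ) ≤ mu a
    · obtain ⟨h2, h3⟩ := h1
      rw [← hI] at h3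
      obtain ⟨e⟩ := h3
      have : Nonempty (A ξ) := h2.to_subtype
      refine ⟨fun i => (Function.invFun e i : A ξ), fun _ _ => ?_⟩
      ext x
      constructor
      · rintro ⟨i, rfl⟩
        exact (Function.invFun e i).2
      · intro hx
        refine ⟨e ⟨x, hx⟩, ?_⟩
        show ((Function.invFun e (e ⟨x, hx⟩) : A ξ) : K) = x
        rw [Function.leftInverse_invFun e.injective]
    · exact ⟨fun _ => ξ, fun h2 h3 => absurd ⟨h2, h3⟩ h1⟩
  choose e he using hen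
  have hgood : ∀ᶠ ξ in (D : Filter K), range (e ξ) = A ξ ∧ (∀ x ∈ A ξ, x < ξ) ∧
      ∀ ρ < ξ, ∃ x ∈ A ξ, ρ ≤ x := by
    filter_upwards [hcon, ha, h0] with ξ h1 h2 h3
    obtain ⟨h4, h5, h6, h7⟩ := hαA ξ h1
    obtain ⟨y, hy⟩ := h3
    obtain ⟨x, hx, -⟩ := h7 y hy
    rw [h2] at h5
    exact ⟨he ξ ⟨x, hx⟩ h5, h6, h7⟩
  have hconst : ∀ i : I, ∃ y, ∀ᶠ ξ in (D : Filter K), e ξ i = y := by
    intro i
    refine h.regr (fun ξ => e ξ i) (hgood.mono fun ξ hξ => ?_)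
    exact hξ.2.1 _ (hξ.1 ▸ mem_range_self i)
  choose y hy using hconst
  have hall := h.complete I (fun i ξ => e ξ i = y i) (hI ▸ h.strong a) hy
  obtain ⟨ξ, hξ1, hξ2⟩ := (hall.and hgood).exists
  obtain ⟨ξ', ⟨hξ'1, hξ'2⟩, hlt⟩ := ((hall.and hgood).and (h.nonpr ξ)).exists
  have hAA : A ξ = A ξ' := by
    rw [← hξ2.1, ← hξ'2.1]
    congr 1
    ext i
    rw [hξ1 i, hξ'1 i]
  obtain ⟨x, hx, hxξ⟩ := hξ'2.2.2 ξ hlt
  exact absurd (hξ2.2.1 x (hAA ▸ hx)) (not_lt.2 hxξ)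

/-- almost all `y` are closed under a function -/
theorem Setup.closed (h : Setup K Ω D c) (g : K → K) : ∀ᶠ y in (D : Filter K), ∀ x < y, g x < y :=
  h.normal (fun x y => g x < y) fun x => h.nonpr (g x)

/-- below `j` statements that hold almost everywhere for each `i` hold for all `i` with index
below the argument -/
theorem Setup.diag (h : Setup K Ω D c) (j : Ω) (A : Ω → K → Prop)
    (hA : ∀ i < j, ∀ᶠ y in (D : Filter K), A i y) : ∀ᶠ y in (D : Filter K), ∀ i < j, c j i < y → A i y := by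
  have h1 := h.normal (fun x y => ∀ i < j, c j i = x → A i y) fun x => by
    by_cases hx : ∃ i < j, c j i = x
    · obtain ⟨i, hi, rfl⟩ := hx
      filter_upwards [hA i hi] with y hy i' hi' heq
      rwa [h.inj j (mem_Iio.2 hi') (mem_Iio.2 hi) heq]
    · push Not at hx
      exact Eventually.of_forall fun y i hi heq => absurd heq (hx i hi)
  filter_upwards [h1] with y hy i hi hlt
  exact hy _ hlt i hi rfl

/-- two enumerations agree almost everywhere -/
theorem Setup.coh (h : Setup K Ω D c) (j j' : Ω) (hj : j ≤ j') :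
    ∀ᶠ ξ in (D : Filter K), ∀ i < j, (c j i < ξ ↔ c j' i < ξ) := by
  have h1 := h.diag j (fun i ξ => c j' i < ξ) fun i _ => h.nonpr (c j' i)
  have h2 := h.diag j' (fun i ξ => c j i < ξ) fun i _ => h.nonpr (c j i)
  filter_upwards [h1, h2] with ξ h3 h4 i hi
  exact ⟨h3 i hi, h4 i (hi.trans_le hj)⟩

end Pool.Agent.QG
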