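import Pool.Agent.Lib.MP_121b2e_lc.QG.SCond

/-!
# The name of the ultrafilter
-/

set_option autoImplicit false

namespace Pool.Agent.QG

open Cardinal Set Filter

universe u

variable {K : Type u} [LinearOrder K] {Ω : Type u} [LinearOrder Ω]

/-- the notion of forcing -/
abbrev PP (D : Ultrafilter K) (c : Ω → Ω → K) : Type u := SCond D c × Cond K

variable {D : Ultrafilter K} {c : Ω → Ω → K}

/-- for almost all `ξ` and almost all `η`, the condition `q` extended by `t ξ η` forces `η ∈ A` -/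
def G (A : SetName (PP D c) K) (q : PP D c) : Prop :=
  ∀ᶠ ξ in (D : Filter K), ∀ᶠ η in (D : Filter K), A.mem η (q.1, q.2.join (q.1.t ξ η))

theorem ext_le (q : PP D c) (ξ η : K) : (q.1, q.2.join (q.1.t ξ η)) ≤ q :=
  ⟨le_rfl, Cond.join_le_left _ _⟩

/-- the name of the ultrafilter -/
def W (D : Ultrafilter K) (c : Ω → Ω → K) : FamName (PP D c) K where
  mem A q := ∀ r ≤ q, ∃ r' ≤ r, G A r'
  reg A := by
    refine ⟨fun p q hq h r hr => h r (hr.trans hq), fun p h r hr => ?_⟩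
    obtain ⟨r', hr', h'⟩ := h r hr
    obtain ⟨r'', hr'', h''⟩ := h' r' le_rfl
    exact ⟨r'', hr''.trans hr', h''⟩
  ext A B p hAB h r hr := by
    obtain ⟨r', hr', h'⟩ := h r hr
    refine ⟨r', hr', ?_⟩
    filter_upwards [h'] with ξ h1
    filter_upwards [h1] with η h2
    exact (hAB η _ ((ext_le r' ξ η).trans (hr'.trans hr))).1 h2

variable [WellFoundedLT K] [WellFoundedLT Ω]

theorem Setup.G_mono (h : Setup K Ω D c) (A : SetName (PP D c) K) {q q' : PP D c} (hq : q' ≤ q)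
    (hG : G A q) : G A q' := by
  filter_upwards [hG, h.low_ae q'.2, hq.1.2.2] with ξ h1 h2 h3
  filter_upwards [h1, h3] with η h4 h5
  refine (A.reg η).1 _ _ ?_ h4
  exact ⟨hq.1, Cond.join_mono h2 (q'.1.high ξ η) hq.2 h5⟩

theorem Setup.mem_of_G (h : Setup K Ω D c) (A : SetName (PP D c) K) {q : PP D c} (hG : G A q) :
    (W D c).mem A q :=
  fun r hr => ⟨r, le_rfl, h.G_mono A hr hG⟩

/-- the decision lemma for subsets -/
theorem Setup.W_decide (h : Setup K Ω D c) (A : SetName (PP D c) K) (q : PP D c) :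
    ∃ r ≤ q, G A r ∨ G A.compl r := by
  obtain ⟨s', hs', h1⟩ := h.decide (fun x s p => A.mem x (s, p) ∨ A.compl.mem x (s, p))
    (fun x s p s' p' hs hp h1 => h1.imp
      (fun h2 => (A.reg x).1 (s, p) (s', p') ⟨hs, hp⟩ h2)
      (fun h2 => (A.compl.reg x).1 (s, p) (s', p') ⟨hs, hp⟩ h2))
    (fun x s p => by
      by_cases h2 : ∃ r ≤ ((s, p) : PP D c), A.mem x r
      · obtain ⟨r, hr, h3⟩ := h2
        exact ⟨r.1, hr.1, r.2, hr.2, Or.inl h3⟩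
      · exact ⟨s, le_rfl, p, le_rfl, Or.inr fun r hr h3 => h2 ⟨r, hr, h3⟩⟩) q.1
  obtain ⟨r, hr, h2⟩ := h1 q.2
  refine ⟨(s', r), ⟨hs', hr⟩, ?_⟩
  have h3 : ∀ᶠ ξ in (D : Filter K), (∀ᶠ η in (D : Filter K), A.mem η (s', r.join (s'.t ξ η))) ∨
      (∀ᶠ η in (D : Filter K), A.compl.mem η (s', r.join (s'.t ξ η))) := by
    filter_upwards [h2] with ξ h4
    exact Ultrafilter.eventually_or.mp h4
  exact Ultrafilter.eventually_or.mp h3

theorem Setup.not_both (h : Setup K Ω D c) (A : SetName (PP D c) K) (q : PP D c)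
    (h1 : (W D c).mem A q) (h2 : (W D c).mem A.compl q) : False := by
  obtain ⟨r, hr, h3⟩ := h1 q le_rfl
  obtain ⟨r', hr', h4⟩ := h2 r hr
  obtain ⟨ξ, h5, h6⟩ := ((h.G_mono A hr' h3).and h4).exists
  obtain ⟨η, h7, h8⟩ := (h5.and h6).exists
  exact h8 _ le_rfl h7

theorem Setup.W_upward (h : Setup K Ω D c) (A B : SetName (PP D c) K) (q : PP D c)
    (h1 : (W D c).mem A q) (h2 : fSub A B q) : (W D c).mem B q := by
  intro r hr
  obtain ⟨r', hr', h3⟩ := h1 r hr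
  refine ⟨r', hr', ?_⟩
  filter_upwards [h3] with ξ h4
  filter_upwards [h4] with η h5
  exact h2 η _ ((ext_le r' ξ η).trans (hr'.trans hr)) h5

theorem Setup.ultra (h : Setup K Ω D c) (q : PP D c) : fUltrafilter (W D c) q := by
  refine ⟨fun A B r _ hr => h.W_upward A B r hr.1 hr.2, fun A r _ => ?_,
    fun A r _ hr => h.not_both A r hr.1 hr.2⟩
  obtain ⟨r', hr', h'⟩ := h.W_decide A r
  exact ⟨r', hr', h'.imp (h.mem_of_G A) (h.mem_of_G A.compl)⟩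

omit [WellFoundedLT K] [WellFoundedLT Ω] in
private theorem comp_ex (h : Setup K Ω D c) {ι : Type u} (hι : #ι < #K) (P : ι → K → Prop)
    (hP : ∀ᶠ y in (D : Filter K), ∃ i, P i y) : ∃ i, ∀ᶠ y in (D : Filter K), P i y := by
  by_contra hcon
  push Not at hcon
  have h1 := h.complete ι (fun i y => ¬ P i y) hι hcon
  obtain ⟨y, ⟨i, hi⟩, h2⟩ := (hP.and h1).exists
  exact h2 i hi

theorem Setup.comp (h : Setup K Ω D c) (q : PP D c) : fComplete (W D c) q := by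
  intro a A r _ hA r' hr'
  have hcard : #(Iio a) < #K := (le_mu a).trans_lt (h.strong a)
  obtain ⟨s', hs', h'⟩ := h.decide (fun η s p => (∃ i : Iio a, (A.row i).compl.mem η (s, p)) ∨
      (A.inter (SetName.check (Iio a))).mem η (s, p)) (by
        rintro x s p s' p' hs hp (⟨i, hi⟩ | h1)
        · exact Or.inl ⟨i, ((A.row i).compl.reg x).1 (s, p) (s', p') ⟨hs, hp⟩ hi⟩
        · exact Or.inr (((A.inter (SetName.check (Iio a))).reg x).1 (s, p) (s', p') ⟨hs, hp⟩ h1))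
      (by
        intro x s p
        by_cases h1 : (A.inter (SetName.check (Iio a))).mem x (s, p)
        · exact ⟨s, le_rfl, p, le_rfl, Or.inr h1⟩
        · have h2 : ∃ i : Iio a, ∃ q ≤ (s, p), ¬ A.mem ((i : K), x) q := by
            by_contra hcon
            push Not at hcon
            exact h1 fun i q hq hi => hcon ⟨i, hi⟩ q hq
          obtain ⟨i, q, hq, h3⟩ := h2
          have h4 : ∃ q' ≤ q, ∀ r ≤ q', ¬ A.mem ((i : K), x) r := by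
            by_contra hcon
            push Not at hcon
            exact h3 ((A.reg _).2 q hcon)
          obtain ⟨q', hq', h5⟩ := h4
          exact ⟨q'.1, (hq'.trans hq).1, q'.2, (hq'.trans hq).2, Or.inl ⟨i, h5⟩⟩) r'.1
  obtain ⟨p₀, hp₀, h1⟩ := h' r'.2
  have hle : (s', p₀) ≤ r' := ⟨hs', hp₀⟩
  refine ⟨(s', p₀), hle, ?_⟩
  simp only [Ultrafilter.eventually_or] at h1
  rcases h1 with h1 | h1
  · exfalso
    have h2 : ∀ᶠ ξ in (D : Filter K), ∃ i : Iio a, ∀ᶠ η in (D : Filter K),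
        (A.row i).compl.mem η (s', p₀.join (s'.t ξ η)) :=
      h1.mono fun ξ hξ => comp_ex h hcard _ hξ
    obtain ⟨i, hi⟩ := comp_ex h hcard _ h2
    exact h.not_both (A.row i) (s', p₀) (((W D c).reg _).1 _ _ (hle.trans hr') (hA i))
      (h.mem_of_G _ hi)
  · exact h1

theorem Setup.unif (h : Setup K Ω D c) (q : PP D c) : fUniform (W D c) q := by
  intro a
  exact h.mem_of_G _ (Eventually.of_forall fun ξ => h.nonpr a)

/-- the bounding lemma -/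
theorem Setup.bound (h : Setup K Ω D c) (Φ : K → K → SCond D c → Cond K → Prop)
    (hopen : ∀ x y s p s' p', s' ≤ s → p' ≤ p → Φ x y s p → Φ x y s' p') (s : SCond D c)
    (p : Cond K) (hd : ∀ x, ∀ s' ≤ s, ∀ p' ≤ p, ∃ s'' ≤ s', ∃ p'' ≤ p', ∃ y, Φ x y s'' p'') :
    ∃ s' ≤ s, ∃ b : K → K, ∀ x, ∀ p' ≤ p, ∃ p'' ≤ p', ∃ y < b x, Φ x y s' p'' := by
  obtain ⟨s', hs', h'⟩ := h.fix (fun x s' p' => (∃ y, Φ x y s' p') ∨
      ∀ s'' ≤ s', ∀ p'' ≤ p', ¬(s'' ≤ s ∧ p'' ≤ p)) (by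
        rintro x s₁ p₁ s₂ p₂ hs hp (⟨y, hy⟩ | h1)
        · exact Or.inl ⟨y, hopen _ _ _ _ _ _ hs hp hy⟩
        · exact Or.inr fun s'' hs'' p'' hp'' => h1 s'' (hs''.trans hs) p'' (hp''.trans hp)) (by
        intro x s₁ p₁
        by_cases h1 : ∃ s₂ ≤ s₁, ∃ p₂ ≤ p₁, s₂ ≤ s ∧ p₂ ≤ p
        · obtain ⟨s₂, hs₂, p₂, hp₂, h2, h3⟩ := h1
          obtain ⟨s₃, hs₃, p₃, hp₃, y, hy⟩ := hd x s₂ h2 p₂ h3
          exact ⟨s₃, hs₃.trans hs₂, p₃, hp₃.trans hp₂, Or.inl ⟨y, hy⟩⟩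
        · exact ⟨s₁, le_rfl, p₁, le_rfl, Or.inr fun s'' hs'' p'' hp'' h2 =>
            h1 ⟨s'', hs'', p'', hp'', h2⟩⟩) s
  have key : ∀ x, ∃ b, ∀ p' ≤ p, ∃ p'' ≤ p', ∃ y < b, Φ x y s' p'' := by
    intro x
    refine h.cc (fun y p'' => Φ x y s' p'') (fun y p₁ p₂ hp => hopen _ _ _ _ _ _ le_rfl hp) p
      fun p₁ hp₁ => ?_
    obtain ⟨p₂, hp₂, h1 | h1⟩ := h' x p₁
    · exact ⟨p₂, hp₂, h1⟩
    · exact absurd ⟨hs', hp₂.trans hp₁⟩ (h1 s' le_rfl p₂ le_rfl)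
  choose b hb using key
  exact ⟨s', hs', b, hb⟩

theorem Setup.club (h : Setup K Ω D c) (C : SetName (PP D c) K) (q : PP D c) (hC : fClub C q) :
    (W D c).mem C q := by
  intro r hr
  obtain ⟨s', hs', b, hb⟩ := h.bound (fun x y s p => x < y ∧ C.mem y (s, p))
    (fun x y s p s' p' hs hp h1 => ⟨h1.1, (C.reg y).1 _ _ ⟨hs, hp⟩ h1.2⟩) r.1 r.2
    (fun x s' hs p' hp => by
      obtain ⟨r', hr', y, hy⟩ := hC.1 x (s', p') (le_trans (b := r) ⟨hs, hp⟩ hr)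
      exact ⟨r'.1, hr'.1, r'.2, hr'.2, y, y.2, hy⟩)
  refine ⟨(s', r.2), ⟨hs', le_rfl⟩, Eventually.of_forall fun ξ => ?_⟩
  filter_upwards [h.closed b, h.nonpr ξ] with η h1 h2
  have hle : (s', r.2.join (s'.t ξ η)) ≤ r := ⟨hs', Cond.join_le_left _ _⟩
  refine hC.2 ⟨η, ξ, h2⟩ _ (hle.trans hr) fun x r' hr' => ?_
  obtain ⟨p'', hp'', y, hy, h3, h4⟩ := hb x r'.2 (hr'.trans hle).2
  exact ⟨(r'.1, p''), ⟨le_rfl, hp''⟩, ⟨y, h3, hy.trans (h1 x x.2)⟩,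
    (C.reg _).1 (s', p'') _ ⟨hr'.1, le_rfl⟩ h4⟩

theorem Setup.regular (h : Setup K Ω D c) (q : PP D c) : fRegular (PP D c) K q := by
  intro e a r _
  obtain ⟨s', hs', b, hb⟩ := h.bound (fun i y s p => e.app i y (s, p))
    (fun x y s p s' p' hs hp => (e.reg x y).1 _ _ ⟨hs, hp⟩) r.1 r.2 (fun x s' _ p' _ => by
      obtain ⟨r', hr', y, hy⟩ := e.tot x (s', p')
      exact ⟨r'.1, hr'.1, r'.2, hr'.2, y, hy⟩)
  obtain ⟨B, hB⟩ := h.bdd (b '' Iio a) (mk_image_le.trans_lt ((le_mu a).trans_lt (h.strong a)))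
  refine ⟨(s', r.2), ⟨hs', le_rfl⟩, B, fun i r' hr' => ?_⟩
  obtain ⟨p'', hp'', y, hy, h1⟩ := hb i r'.2 hr'.2
  exact ⟨(r'.1, p''), ⟨le_rfl, hp''⟩, ⟨y, hy.trans (hB _ ⟨i, i.2, rfl⟩)⟩,
    (e.reg _ _).1 (s', p'') _ ⟨hr'.1, le_rfl⟩ h1⟩

/-- the range of a named function from `K` to `Ω` is bounded -/
theorem Setup.range_bound (h : Setup K Ω D c) (e : FunName (PP D c) K Ω) (q : PP D c) :
    ∃ s' ≤ q.1, ∀ x i, ∀ r ≤ (s', q.2), e.app x i r → i < s'.β := by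
  classical
  obtain ⟨s₁, hs1, h1⟩ := h.fix (fun x s p => ∃ i, e.app x i (s, p))
    (fun x s p s' p' hs hp ⟨i, hi⟩ => ⟨i, (e.reg x i).1 (s, p) (s', p') ⟨hs, hp⟩ hi⟩)
    (fun x s p => by
      obtain ⟨r, hr, i, hi⟩ := e.tot x (s, p)
      exact ⟨r.1, hr.1, r.2, hr.2, i, hi⟩) q.1
  obtain ⟨k₀⟩ : Nonempty K := Filter.nonempty_of_neBot (D : Filter K)
  have hinf : ℵ₀ ≤ #K := (aleph0_le_mu k₀).trans (h.strong k₀).le
  have hcard : #(K × Cond K) ≤ #K := by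
    rw [mk_prod, lift_id, lift_id]
    exact (mul_le_mul' le_rfl h.card_cond).trans (mul_eq_self hinf).le
  obtain ⟨φ⟩ := hcard
  let g : K → Ω := fun k =>
    if hk : ∃ i, ∃ z : K × Cond K, φ z = k ∧ e.app z.1 i (s₁, z.2) then hk.choose else q.1.β
  obtain ⟨j, hj⟩ := h.regΩ g
  obtain ⟨s₂, hs2, hjs⟩ := h.reach j s₁
  refine ⟨s₂, hs2.trans hs1, fun x i r hr hi => ?_⟩
  obtain ⟨p', hp', i', hi'⟩ := h1 x r.2
  have h2 : i = i' := by
    refine e.sv x i i' (r.1, p') ?_ ?_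
    · exact (e.reg x i).1 r (r.1, p') ⟨le_rfl, hp'⟩ hi
    · exact (e.reg x i').1 (s₁, p') (r.1, p') ⟨hr.1.trans hs2, le_rfl⟩ hi'
  have hk : ∃ i, ∃ z : K × Cond K, φ z = φ (x, p') ∧ e.app z.1 i (s₁, z.2) :=
    ⟨i', (x, p'), rfl, hi'⟩
  have h3 : g (φ (x, p')) = i' := by
    have h4 : g (φ (x, p')) = hk.choose := dif_pos hk
    rw [h4]
    obtain ⟨z, hz, h5⟩ := hk.choose_spec
    have h6 : z = (x, p') := φ.injective hz
    rw [h6] at h5
    exact e.sv x _ _ _ h5 hi'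
  rw [h2, ← h3]
  exact (hj _).trans hjs

theorem Setup.succPreserved (h : Setup K Ω D c) (q : PP D c) :
    fSuccPreserved (PP D c) K Ω q := by
  intro e r _
  obtain ⟨s', hs', h'⟩ := h.range_bound e r
  refine ⟨(s', r.2), ⟨hs', le_rfl⟩, s'.β, fun x r' hr' => ?_⟩
  obtain ⟨r'', hr'', i, hi⟩ := e.tot x r'
  exact ⟨r'', hr'', ⟨i, h' x i r'' (hr''.trans hr') hi⟩, hi⟩

/-- the values of a named injection from `K` to `Ω` are unbounded in the enumeration `c β` -/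
theorem Setup.inj_unbdd (h : Setup K Ω D c) (e : FunName (PP D c) K Ω) (q : PP D c)
    (hinj : fInj e q) (β : Ω) (hβ : ∀ x i, ∀ r ≤ q, e.app x i r → i < β) (a : K) :
    ∃ r ≤ q, ∃ x i, e.app x i r ∧ a ≤ c β i := by
  classical
  by_contra hcon
  have hlt : ∀ r ≤ q, ∀ x i, e.app x i r → c β i < a := by
    intro r hr x i hi
    by_contra h1
    exact hcon ⟨r, hr, x, i, hi, not_lt.mp h1⟩
  obtain ⟨s₁, hs1, h1⟩ := h.decide (fun x s p => ∃ i, e.app x i (s, p))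
    (fun x s p s' p' hs hp ⟨i, hi⟩ => ⟨i, (e.reg x i).1 (s, p) (s', p') ⟨hs, hp⟩ hi⟩)
    (fun x s p => by
      obtain ⟨r, hr, i, hi⟩ := e.tot x (s, p)
      exact ⟨r.1, hr.1, r.2, hr.2, i, hi⟩) q.1
  obtain ⟨r₀, hr0, h2⟩ := h1 q.2
  have hcard : #(Iio a) < #K := (le_mu a).trans_lt (h.strong a)
  have h3 : ∀ᶠ ξ in (D : Filter K), ∃ v ∈ Iio a, ∀ᶠ η in (D : Filter K),
      ∃ i, e.app η i (s₁, r₀.join (s₁.t ξ η)) ∧ c β i = v := by
    filter_upwards [h2] with ξ h4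
    let g : K → K := fun η => if hη : ∃ i, e.app η i (s₁, r₀.join (s₁.t ξ η)) then
      c β hη.choose else a
    have hg : ∀ η (hη : ∃ i, e.app η i (s₁, r₀.join (s₁.t ξ η))), g η = c β hη.choose :=
      fun η hη => dif_pos hη
    obtain ⟨v, hv, h5⟩ := h.const g (Iio a) hcard (by
      filter_upwards [h4] with η hη
      rw [hg η hη]
      exact hlt _ ⟨hs1, (Cond.join_le_left _ _).trans hr0⟩ _ _ hη.choose_spec)
    refine ⟨v, hv, ?_⟩
    filter_upwards [h4, h5] with η hη h6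
    rw [hg η hη] at h6
    exact ⟨_, hη.choose_spec, h6⟩
  obtain ⟨v, -, h4⟩ : ∃ v ∈ Iio a, ∀ᶠ ξ in (D : Filter K), ∀ᶠ η in (D : Filter K),
      ∃ i, e.app η i (s₁, r₀.join (s₁.t ξ η)) ∧ c β i = v := by
    let g : K → K := fun ξ => if hξ : ∃ v ∈ Iio a, ∀ᶠ η in (D : Filter K),
      ∃ i, e.app η i (s₁, r₀.join (s₁.t ξ η)) ∧ c β i = v then hξ.choose else a
    have hg : ∀ ξ (hξ : ∃ v ∈ Iio a, ∀ᶠ η in (D : Filter K),
      ∃ i, e.app η i (s₁, r₀.join (s₁.t ξ η)) ∧ c β i = v), g ξ = hξ.choose :=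
      fun ξ hξ => dif_pos hξ
    obtain ⟨v, hv, h5⟩ := h.const g (Iio a) hcard (by
      filter_upwards [h3] with ξ hξ
      rw [hg ξ hξ]
      exact hξ.choose_spec.1)
    refine ⟨v, hv, ?_⟩
    filter_upwards [h3, h5] with ξ hξ h6
    rw [hg ξ hξ] at h6
    rw [← h6]
    exact hξ.choose_spec.2
  obtain ⟨ξ₁, h5⟩ := h4.exists
  obtain ⟨η₁, i₁, h6, h7⟩ := h5.exists
  obtain ⟨ξ₂, h8, h9⟩ := (h4.and (h.low_ae (r₀.join (s₁.t ξ₁ η₁)))).exists
  obtain ⟨η₂, ⟨i₂, h10, h11⟩, h12⟩ := (h8.and (h.nonpr η₁)).exists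
  have hq1 : ((s₁, (r₀.join (s₁.t ξ₁ η₁)).join (s₁.t ξ₂ η₂)) : PP D c) ≤
      (s₁, r₀.join (s₁.t ξ₁ η₁)) := ⟨le_rfl, Cond.join_le_left _ _⟩
  have hq2 : ((s₁, (r₀.join (s₁.t ξ₁ η₁)).join (s₁.t ξ₂ η₂)) : PP D c) ≤
      (s₁, r₀.join (s₁.t ξ₂ η₂)) :=
    ⟨le_rfl, Cond.join_mono h9 (s₁.high ξ₂ η₂) (Cond.join_le_left _ _) le_rfl⟩
  have hq0 : ((s₁, r₀.join (s₁.t ξ₁ η₁)) : PP D c) ≤ q :=
    ⟨hs1, (Cond.join_le_left _ _).trans hr0⟩
  have hq0' : ((s₁, r₀.join (s₁.t ξ₂ η₂)) : PP D c) ≤ q :=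
    ⟨hs1, (Cond.join_le_left _ _).trans hr0⟩
  have h13 : i₁ = i₂ := h.inj β (hβ _ _ _ hq0 h6) (hβ _ _ _ hq0' h10) (h7.trans h11.symm)
  have h14 := hinj η₁ η₂ i₁ _ (hq1.trans hq0)
    ⟨(e.reg η₁ i₁).1 _ _ hq1 h6, h13 ▸ (e.reg η₂ i₂).1 _ _ hq2 h10⟩
  exact absurd h14 h12.ne

/-- the name of the family without the Galvin property: `η ∈ A i` if the generic of the Easton
product has the value `true` at `(η, f i η)` -/
def pat (D : Ultrafilter K) (c : Ω → Ω → K) : SetName (PP D c) (Ω × K) where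
  mem x q := ∀ q' ≤ q, ∃ r ≤ q', x.1 ≤ r.1.β ∧ r.2.f x.2 (r.1.f x.1 x.2) = some true
  reg x := by
    refine ⟨fun p q hq h r hr => h r (hr.trans hq), fun p h r hr => ?_⟩
    obtain ⟨r', hr', h'⟩ := h r hr
    obtain ⟨r'', hr'', h''⟩ := h' r' le_rfl
    exact ⟨r'', hr''.trans hr', h''⟩

theorem not_pat (i : Ω) (η : K) (q : PP D c) (h1 : i ≤ q.1.β)
    (h2 : q.2.f η (q.1.f i η) = some false) : ¬ (pat D c).mem (i, η) q := by
  intro h
  obtain ⟨r, hr, h3, h4⟩ := h q le_rfl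
  rw [hr.1.2.1 i h1] at h4
  have h5 := hr.2 _ _ _ h2
  simp_all

/-- the members of the family are in the ultrafilter -/
theorem Setup.pat_mem (h : Setup K Ω D c) (i : Ω) (q : PP D c) :
    (W D c).mem ((pat D c).row i) q := by
  intro r _
  obtain ⟨s', hs', hi⟩ := h.reach i r.1
  refine ⟨(s', r.2), ⟨hs', le_rfl⟩, ?_⟩
  filter_upwards [s'.pat, h.nonpr (c s'.β i)] with ξ h1 h2
  filter_upwards [h1, h.nonpr (c s'.β i), h.low_ae r.2] with η h3 h4 h5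
  show (pat D c).mem (i, η) (s', r.2.join (s'.t ξ η))
  intro q' hq'
  refine ⟨q', le_rfl, hi.le.trans hq'.1.1, ?_⟩
  have h6 : (r.2.join (s'.t ξ η)).f η (s'.f i η) = some true := by
    have h7 : r.2.f η (s'.f i η) = none := by
      by_contra h8
      exact lt_irrefl _ (h5 η _ h8)
    show (r.2.f η (s'.f i η)).or ((s'.t ξ η).f η (s'.f i η)) = some true
    rw [h7, h3 i hi h4, Option.none_or]
    simp [h2]
  have h8 : q'.1.f i = s'.f i := hq'.1.2.1 i hi.le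
  show q'.2.f η (q'.1.f i η) = some true
  rw [h8]
  exact hq'.2 _ _ _ h6

/-- intersections of `κ` many members of the family are not in the ultrafilter -/
theorem Setup.pat_inter (h : Setup K Ω D c) (e : FunName (PP D c) K Ω)
    (J : SetName (PP D c) Ω) (q : PP D c) (hinj : fInj e q)
    (hJ : ∀ x i, fImp (e.app x i) (J.mem i) q) (hW : (W D c).mem ((pat D c).inter J) q) :
    False := by
  obtain ⟨q₁, hq1, hG⟩ := hW q le_rfl
  obtain ⟨s₂, hs2, hβ⟩ := h.range_bound e q₁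
  obtain ⟨s₃, hs3, b, hb⟩ := h.bound
    (fun ξ y s p => ξ ≤ y ∧ ∃ x i, e.app x i (s, p) ∧ c s₂.β i = y)
    (fun ξ y s p s' p' hs hp ⟨h1, x, i, h2, h3⟩ =>
      ⟨h1, x, i, (e.reg x i).1 (s, p) (s', p') ⟨hs, hp⟩ h2, h3⟩) s₂ q₁.2
    (fun ξ s' hs' p' hp' => by
      have hle : ((s', p') : PP D c) ≤ q₁ := ⟨hs'.trans hs2, hp'⟩
      obtain ⟨r, hr, x, i, h1, h2⟩ := h.inj_unbdd e (s', p')
        (fun x y b r hr => hinj x y b r (hr.trans (hle.trans hq1))) s₂.β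
        (fun x i r hr => hβ x i r (hr.trans ⟨hs', hp'⟩)) ξ
      exact ⟨r.1, hr.1, r.2, hr.2, c s₂.β i, h2, x, i, h1, rfl⟩)
  have hle : ((s₃, q₁.2) : PP D c) ≤ q₁ := ⟨hs3.trans hs2, le_rfl⟩
  have hG' := h.G_mono _ hle hG
  have hβle : s₂.β ≤ s₃.β := hs3.1
  obtain ⟨ξ, h1, h2, h3, h4⟩ := (hG'.and (s₃.pat.and ((h.coh s₂.β s₃.β hβle).and
    (h.low_ae q₁.2)))).exists
  obtain ⟨η, h5, h6, h7, h8⟩ := (h1.and (h2.and ((h.coh s₂.β s₃.β hβle).and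
    (h.nonpr (b ξ))))).exists
  obtain ⟨p, hp, y, hy, hξy, x, i, he, hc⟩ := hb ξ (q₁.2.join (s₃.t ξ η))
    (Cond.join_le_left _ _)
  have hple : ((s₃, p) : PP D c) ≤ (s₃, q₁.2.join (s₃.t ξ η)) := ⟨le_rfl, hp⟩
  have hpq1 : ((s₃, p) : PP D c) ≤ q₁ := hple.trans ((ext_le (s₃, q₁.2) ξ η).trans hle)
  have hi : i < s₂.β := hβ x i (s₃, p) ⟨hs3, hp.trans (Cond.join_le_left _ _)⟩ he
  have hJi : J.mem i (s₃, p) := hJ x i (s₃, p) (hpq1.trans hq1) he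
  have hpat : (pat D c).mem (i, η) (s₃, p) := h5 i (s₃, p) hple hJi
  refine not_pat i η (s₃, p) (hi.le.trans hβle) ?_ hpat
  have h9 : c s₃.β i < η := (h7 i hi).mp (by rw [hc]; exact hy.trans h8)
  have h10 : ¬ c s₃.β i < ξ := by
    intro h11
    have h12 := (h3 i hi).mpr h11
    rw [hc] at h12
    exact absurd hξy (not_le.mpr h12)
  have h11 := h6 i (hi.trans_le hβle) h9
  have h12 : (s₃.t ξ η).f η (s₃.f i η) = some false := by
    rw [h11]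
    simp [h10]
  exact (hp.trans (Cond.join_le_right h4 (s₃.high ξ η))) _ _ _ h12

theorem Setup.notGalvin (h : Setup K Ω D c) (q : PP D c) : fNot (fGalvin Ω (W D c)) q := by
  intro r _ hr
  obtain ⟨r', hr', J, hJ, hW⟩ := hr (pat D c) r le_rfl (fun i => h.pat_mem i r) r le_rfl
  obtain ⟨r'', hr'', e, he1, he2, -⟩ := hJ r' le_rfl
  exact h.pat_inter e J r'' he1 (fun x i => he2 x i) ((W D c).reg _ |>.1 r' r'' hr'' hW)

theorem Setup.main (h : Setup K Ω D c) (q : PP D c) :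
    fAnd (fRegular (PP D c) K) (fAnd (fSuccPreserved (PP D c) K Ω)
      (fExistsQPointNonGalvin (PP D c) K Ω)) q :=
  ⟨h.regular q, h.succPreserved q, fun r _ => ⟨r, le_rfl, W D c, h.ultra r, h.comp r, h.unif r,
    fun C r' _ hC => h.club C r' hC, h.notGalvin r⟩⟩

end Pool.Agent.QG
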